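import Pool.Agent.X97.RH.Force

/-! # Averaging over rotation numbers, for a general measure -/

namespace X97.BD

open MeasureTheory Set X97.RH
open scoped ENNReal

variable (ν : Measure (ℕ → ℕ)) [IsProbabilityMeasure ν]

/-- The set of points found by stage `m`, monotone and with bounded use. -/
structure App (H : ℕ → (ℕ → ℕ) → Set ℕ) : Prop where
  det : ∀ m X X', (∀ j < m, X j = X' j) → H m X ⊆ H m X'
  mono : ∀ m m' X, m ≤ m' → H m X ⊆ H m' X

def Et (H : ℕ → (ℕ → ℕ) → Set ℕ) (C : Set (ℕ → ℕ)) (m : ℕ) (t : ℕ × ℕ × ℕ) :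
    Set (ℕ → ℕ) := C ∩ {X | t.1 ∈ H m X ∧ t.2.1 ∈ H m X ∧ t.2.2 ∈ H m X}

variable {H : ℕ → (ℕ → ℕ) → Set ℕ} {C : Set (ℕ → ℕ)}

theorem Et_meas (hH : App H) (hC : MeasurableSet C) (m : ℕ) (t : ℕ × ℕ × ℕ) :
    MeasurableSet (Et H C m t) := by
  refine hC.inter (Det.measurableSet (m := m) ?_)
  rintro X X' h ⟨h1, h2, h3⟩
  exact ⟨hH.det m X X' h h1, hH.det m X X' h h2, hH.det m X X' h h3⟩

def Em (H : ℕ → (ℕ → ℕ) → Set ℕ) (C : Set (ℕ → ℕ)) (U m : ℕ) :
    Set (ℕ → ℕ) := ⋃ t ∈ Ts U m, Et H C m t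

theorem Em_meas (hH : App H) (hC : MeasurableSet C) (U m : ℕ) : MeasurableSet (Em H C U m) :=
  Finset.measurableSet_biUnion _ fun t _ => Et_meas hH hC m t

theorem Em_mono (hH : App H) (C : Set (ℕ → ℕ)) (U : ℕ) : Monotone (Em H C U) := by
  intro m m' hm X hX
  simp only [Em, mem_iUnion] at hX ⊢
  obtain ⟨t, ht, hX⟩ := hX
  rw [mem_Ts] at ht
  refine ⟨t, mem_Ts.2 ⟨⟨by omega, by omega, by omega⟩, ht.2⟩, hX.1, hH.mono _ _ X hm hX.2.1,
    hH.mono _ _ X hm hX.2.2.1, hH.mono _ _ X hm hX.2.2.2⟩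

theorem sub_Em (hH : App H) (C : Set (ℕ → ℕ)) (U : ℕ) :
    C ∩ {X | (⋃ m, H m X).Infinite} ⊆ ⋃ m, Em H C U m := by
  rintro X ⟨hXC, hinf⟩
  obtain ⟨a, ha⟩ := Set.Infinite.nonempty hinf
  obtain ⟨b, hb, hab⟩ := Set.Infinite.exists_gt hinf (a + U)
  obtain ⟨d, hd, hbd⟩ := Set.Infinite.exists_gt hinf (a + 60 * (b - a) + b)
  obtain ⟨ua, hua⟩ := mem_iUnion.1 ha
  obtain ⟨ub, hub⟩ := mem_iUnion.1 hb
  obtain ⟨ud, hud⟩ := mem_iUnion.1 hd
  refine mem_iUnion.2 ⟨max (max ua ub) (max ud d), ?_⟩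
  simp only [Em, mem_iUnion]
  refine ⟨(a, b, d), mem_Ts.2 ⟨⟨?_, ?_, ?_⟩, ?_⟩, hXC, ?_, ?_, ?_⟩
  · simp only; omega
  · simp only; omega
  · simp only; omega
  · refine ⟨?_, ?_, ?_, ?_⟩ <;> simp only <;> omega
  · exact hH.mono _ _ X (by omega) hua
  · exact hH.mono _ _ X (by omega) hub
  · exact hH.mono _ _ X (by omega) hud

def Dm (H : ℕ → (ℕ → ℕ) → Set ℕ) (C : Set (ℕ → ℕ)) (U m : ℕ) (α' : ℝ) :
    Set (ℕ → ℕ) := {X | ∃ t ∈ Ts U m, α' ∈ Good (t.2.1 - t.1) (t.2.2 - t.1) ∧ X ∈ Et H C m t}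

theorem exists_alpha (hH : App H) (hC : MeasurableSet C)
    (U m : ℕ) (α ρ : ℝ) (hρ : 0 < ρ) (hU : 4 ≤ ρ * U)
    (hpos : 0 < (ν (Em H C U m)).toReal) :
    ∃ α' ∈ Ioo (α - ρ) (α + ρ),
      (ν (Em H C U m)).toReal / 3600 < (ν (Dm H C U m α')).toReal := by
  by_contra hcon
  push Not at hcon
  set e := (ν (Em H C U m)).toReal with he
  set I := Ioo (α - ρ) (α + ρ) with hI
  set P : Set (ℝ × (ℕ → ℕ)) := ⋃ t ∈ Ts U m,
    (Good (t.2.1 - t.1) (t.2.2 - t.1)) ×ˢ (Et H C m t) with hP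
  have hPm : MeasurableSet P := Finset.measurableSet_biUnion _ fun t _ =>
    (measurableSet_Good _ _).prod (Et_meas hH hC m t)
  have hsec : ∀ α', Prod.mk α' ⁻¹' P = Dm H C U m α' := by
    intro α'
    ext X
    simp only [hP, mem_preimage, mem_iUnion, mem_prod, Dm, mem_ofPred_eq, exists_prop]
  have h1 : ((volume.restrict I).prod ν) P ≤ ENNReal.ofReal (e / 3600) * ENNReal.ofReal (2 * ρ) := by
    rw [Measure.prod_apply hPm]
    simp only [hsec]
    calc ∫⁻ x in I, ν (Dm H C U m x) ≤ ∫⁻ x in I, ENNReal.ofReal (e / 3600) := by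
          refine setLIntegral_mono measurable_const fun x hx => ?_
          rw [← ENNReal.ofReal_toReal (measure_ne_top ν (Dm H C U m x))]
          exact ENNReal.ofReal_le_ofReal (hcon x hx)
      _ = ENNReal.ofReal (e / 3600) * ENNReal.ofReal (2 * ρ) := by
          rw [setLIntegral_const, hI, Real.volume_Ioo]
          congr 2; ring
  have h2 : ENNReal.ofReal (ρ / 900) * ENNReal.ofReal e ≤ ((volume.restrict I).prod ν) P := by
    rw [Measure.prod_apply_symm hPm]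
    calc ENNReal.ofReal (ρ / 900) * ENNReal.ofReal e
        = ∫⁻ X in Em H C U m, ENNReal.ofReal (ρ / 900) ∂ν := by
          rw [setLIntegral_const, he, ENNReal.ofReal_toReal (measure_ne_top _ _)]
      _ ≤ ∫⁻ X in Em H C U m, (volume.restrict I) ((fun x => (x, X)) ⁻¹' P) ∂ν := by
          refine setLIntegral_mono' (Em_meas hH hC U m) fun X hX => ?_
          simp only [Em, mem_iUnion] at hX
          obtain ⟨t, ht, hXt⟩ := hX
          have hts := (mem_Ts.1 ht).2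
          obtain ⟨s1, s2, s3, s4⟩ := hts
          have hv := volume_good (u := t.2.1 - t.1) (v := t.2.2 - t.1) (by omega) s4 α ρ (by
            have : (U : ℝ) ≤ ((t.2.1 - t.1 : ℕ) : ℝ) := by exact_mod_cast s2
            nlinarith)
          refine hv.trans ?_
          rw [Measure.restrict_apply' measurableSet_Ioo]
          refine measure_mono (inter_subset_inter_left _ fun x hx => ?_)
          simp only [hP, mem_preimage, mem_iUnion, mem_prod]
          exact ⟨t, ht, hx, hXt⟩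
      _ ≤ ∫⁻ X, (volume.restrict I) ((fun x => (x, X)) ⁻¹' P) ∂ν := setLIntegral_le_lintegral _ _
  have h3 := h2.trans h1
  rw [← ENNReal.ofReal_mul (by positivity), ← ENNReal.ofReal_mul (by positivity)] at h3
  have h4 := (ENNReal.ofReal_le_ofReal_iff (by positivity)).1 h3
  nlinarith [mul_pos hρ hpos]

/-- If for many `X` in `C` the set is infinite, then for some `α` in the given interval a fixed
part of `C` gives a triple that is good for `α`. -/
theorem caseB (hH : App H) (hC : MeasurableSet C) {p q : ℝ} (hpq : p < q)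
    (hbig : tht * ν C < ν (C ∩ {X | (⋃ m, H m X).Infinite})) :
    ∃ α' ∈ Ioo p q, ∃ U m, (ν C).toReal / 4000 < (ν (Dm H C U m α')).toReal := by
  set α := (p + q) / 2 with hα
  set ρ := (q - p) / 2 with hρ
  have hρ0 : 0 < ρ := by rw [hρ]; linarith
  obtain ⟨U, hU⟩ := exists_nat_ge (4 / ρ)
  have hU' : 4 ≤ ρ * U := by
    rw [div_le_iff₀ hρ0] at hU; linarith
  have h1 : tht * ν C < ⨆ m, ν (Em H C U m) := by
    rw [← (Em_mono hH C U).measure_iUnion]
    exact hbig.trans_le (measure_mono (sub_Em hH C U))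
  obtain ⟨m, hm⟩ := lt_iSup_iff.1 h1
  have hm' : 3999 / 4000 * (ν C).toReal < (ν (Em H C U m)).toReal := by
    have := ENNReal.toReal_strict_mono (measure_ne_top ν _) hm
    rw [ENNReal.toReal_mul] at this
    unfold tht at this
    rwa [ENNReal.toReal_ofReal (by norm_num)] at this
  have hpos : 0 < (ν (Em H C U m)).toReal := lt_of_le_of_lt (by positivity) hm'
  obtain ⟨α', hα', hD⟩ := exists_alpha ν hH hC U m α ρ hρ0 hU' hpos
  refine ⟨α', ?_, U, m, ?_⟩
  · have e1 : α - ρ = p := by rw [hα, hρ]; ring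
    have e2 : α + ρ = q := by rw [hα, hρ]; ring
    rw [e1, e2] at hα'; exact hα'
  · have := ENNReal.toReal_nonneg (a := ν C)
    linarith

end X97.BD
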