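import Mathlib

/-! # A computable colouring: definition and computability -/

namespace X97.BD

open Nat.Partrec (Code)
open Encodable Primrec

/-- All binary strings of length `t`. -/
def allStr : ℕ → List (List ℕ)
  | 0 => [[]]
  | t + 1 => (allStr t).flatMap fun σ => [σ ++ [0], σ ++ [1]]

/-- `x` is enumerated within time `t` by the program `e` with the finite oracle `σ`. -/
def InT (e : Code) (t : ℕ) (σ : List ℕ) (x : ℕ) : Prop :=
  ∃ m < t + 1, Code.evaln t e (encode (σ.take m, x)) = some 1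

/-- For all `α` in `[P/D, Q/D]`, `u α` is near `1/3` and `v α` near `2/3` modulo one. -/
def GI (u v P Q D : ℕ) : Prop :=
  (∃ k < u + 1, (60 * k + 17) * D ≤ 60 * (u * P) ∧ 60 * (u * Q) ≤ (60 * k + 23) * D) ∧
  (∃ l < v + 1, (60 * l + 37) * D ≤ 60 * (v * P) ∧ 60 * (v * Q) ≤ (60 * l + 43) * D)

/-- Some good triple is found. -/
def Cond (e : Code) (t : ℕ) (P Q D : ℕ) (σ : List ℕ) : Prop :=
  ∃ a < t, ∃ b < t, ∃ d < t, a < b ∧ b < d ∧ InT e t σ a ∧ InT e t σ b ∧ InT e t σ d ∧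
    GI (b - a) (d - a) P Q D

open Classical in
/-- The strings above `τ` for which a good triple is found. -/
noncomputable def goodL (e : Code) (τ : List ℕ) (t : ℕ) (P Q D : ℕ) : List (List ℕ) :=
  (allStr t).filter fun σ => decide (σ.take τ.length = τ ∧ Cond e t P Q D σ)

/-- The test for requirement `(e, τ)`, interval `[P0/D0, Q0/D0]`, candidate `(t, P, Q, N)`. -/
def Test (r : Code × List ℕ) (J : ℕ × ℕ × ℕ) (n : ℕ × ℕ × ℕ × ℕ) : Prop :=
  r.2.length ≤ n.1 ∧ n.2.1 < n.2.2.1 ∧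
  J.1 * (n.2.2.2 + 1) ≤ n.2.1 * (J.2.2 + 1) ∧ n.2.2.1 * (J.2.2 + 1) ≤ J.2.1 * (n.2.2.2 + 1) ∧
  2 ^ n.1 ≤ 4000 * (2 ^ r.2.length * (goodL r.1 r.2 n.1 n.2.1 n.2.2.1 (n.2.2.2 + 1)).length)

/-- The candidate with number `n`. -/
def cd (n : ℕ) : ℕ × ℕ × ℕ × ℕ := Denumerable.ofNat (ℕ × ℕ × ℕ × ℕ) n

/-- The `i`-th requirement. -/
def req (i : ℕ) : Code × List ℕ := (decode i).getD (Code.zero, [])

open Classical in
/-- The first successful candidate up to `s`. -/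
noncomputable def fi (s i : ℕ) (J : ℕ × ℕ × ℕ) : ℕ :=
  (List.range (s + 1)).findIdx (fun n => decide (Test (req i) J (cd n)))

/-- One step. -/
noncomputable def stp (s i : ℕ) (J : ℕ × ℕ × ℕ) : ℕ × ℕ × ℕ :=
  if fi s i J < s + 1 then (cd (fi s i J)).2 else J

/-- The approximations to the intervals. -/
noncomputable def JJ (s : ℕ) : ℕ → ℕ × ℕ × ℕ
  | 0 => (0, 1, 0)
  | i + 1 => stp s i (JJ s i)

/-- The phase as a fraction. -/
noncomputable def ph : ℕ → ℕ × ℕ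
  | 0 => (0, 1)
  | x + 1 => ((ph x).1 * ((JJ x x).2.2 + 1) + (JJ x x).1 * (ph x).2, (ph x).2 * ((JJ x x).2.2 + 1))

/-- The colouring. -/
noncomputable def cc (x : ℕ) : ℕ := (2 * (ph x).1 / (ph x).2) % 2

/-! ### Computability -/

theorem ex_lt {β : Type*} [Primcodable β] {R : ℕ → β → Prop} (hR : PrimrecRel R) {f : β → ℕ}
    (hf : Primrec f) : PrimrecPred fun b => ∃ x < f b, R x b :=
  ((PrimrecRel.exists_mem_list hR).comp (list_range.comp hf) Primrec.id).of_eq fun b => by simp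

theorem allStr_primrec : Primrec allStr := by
  have h : Primrec₂ fun (_ : ℕ) (p : ℕ × List (List ℕ)) =>
      p.2.flatMap fun σ => [σ ++ [0], σ ++ [1]] := by
    refine Primrec.list_flatMap (Primrec.snd.comp Primrec.snd) ?_
    refine Primrec.list_cons.comp ?_ (Primrec.list_cons.comp ?_ (Primrec.const []))
    · exact Primrec.list_append.comp Primrec.snd (Primrec.const [0])
    · exact Primrec.list_append.comp Primrec.snd (Primrec.const [1])
  refine ((Primrec.nat_rec' Primrec.id (Primrec.const [[]]) h) : Primrec _).of_eq fun t => ?_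
  induction t with
  | zero => rfl
  | succ t ih => simp only [id] at ih ⊢; rw [allStr, ← ih]

theorem inT_primrec : PrimrecPred fun p : (Code × ℕ × List ℕ) × ℕ =>
    InT p.1.1 p.1.2.1 p.1.2.2 p.2 := by
  have h : PrimrecRel fun (m : ℕ) (p : (Code × ℕ × List ℕ) × ℕ) =>
      Code.evaln p.1.2.1 p.1.1 (encode (p.1.2.2.take m, p.2)) = some 1 := by
    refine Primrec.eq.comp ?_ (Primrec.const (some 1))
    refine Code.primrec_evaln.comp (Primrec.pair (Primrec.pair ?_ ?_) ?_)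
    · exact Primrec.fst.comp (Primrec.snd.comp (Primrec.fst.comp Primrec.snd))
    · exact Primrec.fst.comp (Primrec.fst.comp Primrec.snd)
    · refine Primrec.encode.comp (Primrec.pair ?_ (Primrec.snd.comp Primrec.snd))
      exact Primrec.list_take.comp Primrec.fst
        (Primrec.snd.comp (Primrec.snd.comp (Primrec.fst.comp Primrec.snd)))
  exact ex_lt h (Primrec.succ.comp (Primrec.fst.comp (Primrec.snd.comp Primrec.fst)))

theorem gi_primrec : PrimrecPred fun p : (ℕ × ℕ) × ℕ × ℕ × ℕ =>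
    GI p.1.1 p.1.2 p.2.1 p.2.2.1 p.2.2.2 := by
  have u : Primrec fun p : (ℕ × ℕ) × ℕ × ℕ × ℕ => p.1.1 := Primrec.fst.comp Primrec.fst
  have v : Primrec fun p : (ℕ × ℕ) × ℕ × ℕ × ℕ => p.1.2 := Primrec.snd.comp Primrec.fst
  have P : Primrec fun p : (ℕ × ℕ) × ℕ × ℕ × ℕ => p.2.1 := Primrec.fst.comp Primrec.snd
  have Q : Primrec fun p : (ℕ × ℕ) × ℕ × ℕ × ℕ => p.2.2.1 :=
    Primrec.fst.comp (Primrec.snd.comp Primrec.snd)
  have D : Primrec fun p : (ℕ × ℕ) × ℕ × ℕ × ℕ => p.2.2.2 :=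
    Primrec.snd.comp (Primrec.snd.comp Primrec.snd)
  have key : ∀ (w : (ℕ × ℕ) × ℕ × ℕ × ℕ → ℕ) (c c' : ℕ), Primrec w →
      PrimrecPred fun p : (ℕ × ℕ) × ℕ × ℕ × ℕ => ∃ k < w p + 1,
        (60 * k + c) * p.2.2.2 ≤ 60 * (w p * p.2.1) ∧
        60 * (w p * p.2.2.1) ≤ (60 * k + c') * p.2.2.2 := by
    intro w c c' hw
    refine ex_lt (R := fun k p => (60 * k + c) * p.2.2.2 ≤ 60 * (w p * p.2.1) ∧
        60 * (w p * p.2.2.1) ≤ (60 * k + c') * p.2.2.2) ?_ (Primrec.succ.comp hw)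
    have hw2 : Primrec fun q : ℕ × ((ℕ × ℕ) × ℕ × ℕ × ℕ) => w q.2 := hw.comp Primrec.snd
    have P2 := P.comp (Primrec.snd (α := ℕ) (β := (ℕ × ℕ) × ℕ × ℕ × ℕ))
    have Q2 := Q.comp (Primrec.snd (α := ℕ) (β := (ℕ × ℕ) × ℕ × ℕ × ℕ))
    have D2 := D.comp (Primrec.snd (α := ℕ) (β := (ℕ × ℕ) × ℕ × ℕ × ℕ))
    have k2 := Primrec.fst (α := ℕ) (β := (ℕ × ℕ) × ℕ × ℕ × ℕ)
    refine PrimrecPred.and ?_ ?_
    · exact Primrec.nat_le.comp (Primrec.nat_mul.comp (Primrec.nat_add.comp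
        (Primrec.nat_mul.comp (Primrec.const 60) k2) (Primrec.const c)) D2)
        (Primrec.nat_mul.comp (Primrec.const 60) (Primrec.nat_mul.comp hw2 P2))
    · exact Primrec.nat_le.comp (Primrec.nat_mul.comp (Primrec.const 60)
        (Primrec.nat_mul.comp hw2 Q2)) (Primrec.nat_mul.comp (Primrec.nat_add.comp
        (Primrec.nat_mul.comp (Primrec.const 60) k2) (Primrec.const c')) D2)
  exact (key (fun p => p.1.1) 17 23 u).and (key (fun p => p.1.2) 37 43 v)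

/-- parameters: `(e, t, P, Q, D), σ` -/
theorem cond_primrec : PrimrecPred fun p : (Code × ℕ × ℕ × ℕ × ℕ) × List ℕ =>
    Cond p.1.1 p.1.2.1 p.1.2.2.1 p.1.2.2.2.1 p.1.2.2.2.2 p.2 := by
  set T := (Code × ℕ × ℕ × ℕ × ℕ) × List ℕ with hT
  have ht : Primrec fun p : T => p.1.2.1 :=
    Primrec.fst.comp (Primrec.snd.comp Primrec.fst)
  -- innermost
  have inner : PrimrecRel fun (d : ℕ) (q : ℕ × ℕ × T) =>
      q.2.1 < q.1 ∧ q.1 < d ∧ InT q.2.2.1.1 q.2.2.1.2.1 q.2.2.2 q.2.1 ∧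
      InT q.2.2.1.1 q.2.2.1.2.1 q.2.2.2 q.1 ∧ InT q.2.2.1.1 q.2.2.1.2.1 q.2.2.2 d ∧
      GI (q.1 - q.2.1) (d - q.2.1) q.2.2.1.2.2.1 q.2.2.1.2.2.2.1 q.2.2.1.2.2.2.2 := by
    have d : Primrec fun z : ℕ × ℕ × ℕ × T => z.1 := Primrec.fst
    have b : Primrec fun z : ℕ × ℕ × ℕ × T => z.2.1 := Primrec.fst.comp Primrec.snd
    have a : Primrec fun z : ℕ × ℕ × ℕ × T => z.2.2.1 :=
      Primrec.fst.comp (Primrec.snd.comp Primrec.snd)
    have p : Primrec fun z : ℕ × ℕ × ℕ × T => z.2.2.2 :=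
      Primrec.snd.comp (Primrec.snd.comp Primrec.snd)
    have e : Primrec fun z : ℕ × ℕ × ℕ × T => z.2.2.2.1.1 :=
      Primrec.fst.comp (Primrec.fst.comp p)
    have t : Primrec fun z : ℕ × ℕ × ℕ × T => z.2.2.2.1.2.1 :=
      Primrec.fst.comp (Primrec.snd.comp (Primrec.fst.comp p))
    have PQD : Primrec fun z : ℕ × ℕ × ℕ × T => z.2.2.2.1.2.2 :=
      Primrec.snd.comp (Primrec.snd.comp (Primrec.fst.comp p))
    have σ : Primrec fun z : ℕ × ℕ × ℕ × T => z.2.2.2.2 := Primrec.snd.comp p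
    have ets : Primrec fun z : ℕ × ℕ × ℕ × T => (z.2.2.2.1.1, z.2.2.2.1.2.1, z.2.2.2.2) :=
      Primrec.pair e (Primrec.pair t σ)
    refine PrimrecPred.and (Primrec.nat_lt.comp a b) (PrimrecPred.and (Primrec.nat_lt.comp b d)
      (PrimrecPred.and ?_ (PrimrecPred.and ?_ (PrimrecPred.and ?_ ?_))))
    · exact inT_primrec.comp (Primrec.pair ets a)
    · exact inT_primrec.comp (Primrec.pair ets b)
    · exact inT_primrec.comp (Primrec.pair ets d)
    · exact gi_primrec.comp (Primrec.pair (Primrec.pair (Primrec.nat_sub.comp b a)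
        (Primrec.nat_sub.comp d a)) PQD)
  have h1 := ex_lt inner (ht.comp (Primrec.snd.comp Primrec.snd))
  have h2 := ex_lt (R := fun (b : ℕ) (q : ℕ × T) => ∃ d < q.2.1.2.1,
      q.1 < b ∧ b < d ∧ InT q.2.1.1 q.2.1.2.1 q.2.2 q.1 ∧
      InT q.2.1.1 q.2.1.2.1 q.2.2 b ∧ InT q.2.1.1 q.2.1.2.1 q.2.2 d ∧
      GI (b - q.1) (d - q.1) q.2.1.2.2.1 q.2.1.2.2.2.1 q.2.1.2.2.2.2) h1 (ht.comp Primrec.snd)
  exact ex_lt (R := fun (a : ℕ) (p : T) => ∃ b < p.1.2.1, ∃ d < p.1.2.1,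
      a < b ∧ b < d ∧ InT p.1.1 p.1.2.1 p.2 a ∧
      InT p.1.1 p.1.2.1 p.2 b ∧ InT p.1.1 p.1.2.1 p.2 d ∧
      GI (b - a) (d - a) p.1.2.2.1 p.1.2.2.2.1 p.1.2.2.2.2) h2 ht

theorem pow_primrec : Primrec fun n : ℕ => 2 ^ n :=
  ((Primrec.nat_rec₁ 1 (f := fun _ m => 2 * m)
    (Primrec.nat_mul.comp (Primrec.const 2) Primrec.snd)) : Primrec _).of_eq fun n => by
    induction n with
    | zero => rfl
    | succ n ih => simp only [] at ih ⊢; rw [ih, pow_succ, mul_comm]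

open Classical in
theorem goodL_primrec : Primrec fun p : (Code × List ℕ) × ℕ × ℕ × ℕ × ℕ =>
    goodL p.1.1 p.1.2 p.2.1 p.2.2.1 p.2.2.2.1 p.2.2.2.2 := by
  have hR : PrimrecRel fun (σ : List ℕ) (p : (Code × List ℕ) × ℕ × ℕ × ℕ × ℕ) =>
      σ.take p.1.2.length = p.1.2 ∧ Cond p.1.1 p.2.1 p.2.2.1 p.2.2.2.1 p.2.2.2.2 σ := by
    have σ : Primrec fun z : List ℕ × ((Code × List ℕ) × ℕ × ℕ × ℕ × ℕ) => z.1 := Primrec.fst
    have τ : Primrec fun z : List ℕ × ((Code × List ℕ) × ℕ × ℕ × ℕ × ℕ) => z.2.1.2 :=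
      Primrec.snd.comp (Primrec.fst.comp Primrec.snd)
    have e : Primrec fun z : List ℕ × ((Code × List ℕ) × ℕ × ℕ × ℕ × ℕ) => z.2.1.1 :=
      Primrec.fst.comp (Primrec.fst.comp Primrec.snd)
    have r : Primrec fun z : List ℕ × ((Code × List ℕ) × ℕ × ℕ × ℕ × ℕ) => z.2.2 :=
      Primrec.snd.comp Primrec.snd
    refine PrimrecPred.and ?_ ?_
    · exact Primrec.eq.comp (Primrec.list_take.comp (Primrec.list_length.comp τ) σ) τ
    · exact cond_primrec.comp (Primrec.pair (Primrec.pair e r) σ)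
  exact (PrimrecRel.listFilter hR).comp (allStr_primrec.comp (Primrec.fst.comp Primrec.snd))
    Primrec.id

theorem test_primrec : PrimrecPred fun p : ((Code × List ℕ) × (ℕ × ℕ × ℕ)) × (ℕ × ℕ × ℕ × ℕ) =>
    Test p.1.1 p.1.2 p.2 := by
  set T := ((Code × List ℕ) × (ℕ × ℕ × ℕ)) × (ℕ × ℕ × ℕ × ℕ) with hT
  have r : Primrec fun p : T => p.1.1 := Primrec.fst.comp Primrec.fst
  have J : Primrec fun p : T => p.1.2 := Primrec.snd.comp Primrec.fst
  have n : Primrec fun p : T => p.2 := Primrec.snd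
  have t : Primrec fun p : T => p.2.1 := Primrec.fst.comp n
  have P : Primrec fun p : T => p.2.2.1 := Primrec.fst.comp (Primrec.snd.comp n)
  have Q : Primrec fun p : T => p.2.2.2.1 :=
    Primrec.fst.comp (Primrec.snd.comp (Primrec.snd.comp n))
  have D : Primrec fun p : T => p.2.2.2.2 + 1 :=
    Primrec.succ.comp (Primrec.snd.comp (Primrec.snd.comp (Primrec.snd.comp n)))
  have J1 : Primrec fun p : T => p.1.2.1 := Primrec.fst.comp J
  have J2 : Primrec fun p : T => p.1.2.2.1 := Primrec.fst.comp (Primrec.snd.comp J)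
  have J3 : Primrec fun p : T => p.1.2.2.2 + 1 :=
    Primrec.succ.comp (Primrec.snd.comp (Primrec.snd.comp J))
  have l : Primrec fun p : T => p.1.1.2.length := Primrec.list_length.comp (Primrec.snd.comp r)
  have g : Primrec fun p : T =>
      (goodL p.1.1.1 p.1.1.2 p.2.1 p.2.2.1 p.2.2.2.1 (p.2.2.2.2 + 1)).length :=
    Primrec.list_length.comp (goodL_primrec.comp
      (Primrec.pair r (Primrec.pair t (Primrec.pair P (Primrec.pair Q D)))))
  refine PrimrecPred.and (Primrec.nat_le.comp l t) (PrimrecPred.and (Primrec.nat_lt.comp P Q)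
    (PrimrecPred.and (Primrec.nat_le.comp (Primrec.nat_mul.comp J1 D) (Primrec.nat_mul.comp P J3))
    (PrimrecPred.and (Primrec.nat_le.comp (Primrec.nat_mul.comp Q J3) (Primrec.nat_mul.comp J2 D))
      ?_)))
  exact Primrec.nat_le.comp (pow_primrec.comp t) (Primrec.nat_mul.comp (Primrec.const 4000)
    (Primrec.nat_mul.comp (pow_primrec.comp l) g))

theorem req_primrec : Primrec req :=
  Primrec.option_getD.comp Primrec.decode (Primrec.const _)

theorem cd_primrec : Primrec cd := Primrec.ofNat _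

open Classical in
theorem fi_primrec : Primrec fun p : (ℕ × ℕ) × (ℕ × ℕ × ℕ) => fi p.1.1 p.1.2 p.2 := by
  have s : Primrec fun p : (ℕ × ℕ) × (ℕ × ℕ × ℕ) => p.1.1 := Primrec.fst.comp Primrec.fst
  have i : Primrec fun p : (ℕ × ℕ) × (ℕ × ℕ × ℕ) => p.1.2 := Primrec.snd.comp Primrec.fst
  have J : Primrec fun p : (ℕ × ℕ) × (ℕ × ℕ × ℕ) => p.2 := Primrec.snd
  unfold fi
  refine Primrec.list_findIdx (Primrec.list_range.comp (Primrec.succ.comp s)) ?_
  have h : PrimrecPred fun z : ((ℕ × ℕ) × (ℕ × ℕ × ℕ)) × ℕ =>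
      Test (req z.1.1.2) z.1.2 (cd z.2) :=
    PrimrecPred.comp (p := fun p : ((Code × List ℕ) × (ℕ × ℕ × ℕ)) × (ℕ × ℕ × ℕ × ℕ) =>
      Test p.1.1 p.1.2 p.2)
      (f := fun z : ((ℕ × ℕ) × (ℕ × ℕ × ℕ)) × ℕ => ((req z.1.1.2, z.1.2), cd z.2))
      test_primrec (Primrec.pair (Primrec.pair (req_primrec.comp (i.comp Primrec.fst))
      (J.comp Primrec.fst)) (cd_primrec.comp Primrec.snd))
  exact PrimrecPred.decide h

attribute [local irreducible] fi cd req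

theorem stp_primrec : Primrec fun p : (ℕ × ℕ) × (ℕ × ℕ × ℕ) => stp p.1.1 p.1.2 p.2 := by
  have s : Primrec fun p : (ℕ × ℕ) × (ℕ × ℕ × ℕ) => p.1.1 + 1 :=
    Primrec.succ.comp (Primrec.fst.comp Primrec.fst)
  have J : Primrec fun p : (ℕ × ℕ) × (ℕ × ℕ × ℕ) => p.2 := Primrec.snd
  have hc : PrimrecPred fun p : (ℕ × ℕ) × (ℕ × ℕ × ℕ) => fi p.1.1 p.1.2 p.2 < p.1.1 + 1 :=
    Primrec.nat_lt.comp fi_primrec s
  have h1 : Primrec fun p : (ℕ × ℕ) × (ℕ × ℕ × ℕ) => (cd (fi p.1.1 p.1.2 p.2)).2 :=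
    Primrec.snd.comp (cd_primrec.comp fi_primrec)
  exact Primrec.ite hc h1 J

theorem JJ_primrec : Primrec₂ JJ := by
  have h : Primrec₂ fun (s : ℕ) (p : ℕ × (ℕ × ℕ × ℕ)) => stp s p.1 p.2 :=
    stp_primrec.comp (Primrec.pair (Primrec.pair Primrec.fst (Primrec.fst.comp Primrec.snd))
      (Primrec.snd.comp Primrec.snd))
  refine (Primrec.nat_rec (Primrec.const (0, 1, 0)) h : Primrec₂ _).of_eq fun s i => ?_
  induction i with
  | zero => rfl
  | succ i ih => simp only [] at ih ⊢; rw [JJ, ← ih]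

theorem ph_primrec : Primrec ph := by
  have h : Primrec₂ fun (x : ℕ) (p : ℕ × ℕ) =>
      (p.1 * ((JJ x x).2.2 + 1) + (JJ x x).1 * p.2, p.2 * ((JJ x x).2.2 + 1)) := by
    have j : Primrec fun z : ℕ × (ℕ × ℕ) => JJ z.1 z.1 := JJ_primrec.comp Primrec.fst Primrec.fst
    have d : Primrec fun z : ℕ × (ℕ × ℕ) => (JJ z.1 z.1).2.2 + 1 :=
      Primrec.succ.comp (Primrec.snd.comp (Primrec.snd.comp j))
    have p1 : Primrec fun z : ℕ × (ℕ × ℕ) => z.2.1 := Primrec.fst.comp Primrec.snd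
    have p2 : Primrec fun z : ℕ × (ℕ × ℕ) => z.2.2 := Primrec.snd.comp Primrec.snd
    exact Primrec.pair (Primrec.nat_add.comp (Primrec.nat_mul.comp p1 d)
      (Primrec.nat_mul.comp (Primrec.fst.comp j) p2)) (Primrec.nat_mul.comp p2 d)
  refine (Primrec.nat_rec₁ (0, 1) h : Primrec _).of_eq fun x => ?_
  induction x with
  | zero => rfl
  | succ x ih => simp only [] at ih ⊢; rw [ph, ← ih]

theorem cc_primrec : Primrec cc := by
  refine Primrec.nat_mod.comp (Primrec.nat_div.comp (Primrec.nat_mul.comp (Primrec.const 2)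
    (Primrec.fst.comp ph_primrec)) (Primrec.snd.comp ph_primrec)) (Primrec.const 2)

end X97.BD
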