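import Mathlib

/-! # The use principle: oracle computations as partial recursive functions of finite oracles -/

namespace X97.BD

open Nat.Partrec (Code)
open Encodable

inductive OC : Type
  | zero : OC
  | succ : OC
  | left : OC
  | right : OC
  | oracle : OC
  | pair (a b : OC) : OC
  | comp (a b : OC) : OC
  | prec (a b : OC) : OC
  | rfind (a : OC) : OC

noncomputable def evo (o : ℕ → Part ℕ) : OC → ℕ → Part ℕ
  | .zero => fun _ => Part.some 0
  | .succ => fun n => Part.some (n + 1)
  | .left => fun n => Part.some (Nat.unpair n).1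
  | .right => fun n => Part.some (Nat.unpair n).2
  | .oracle => fun n => o n
  | .pair a b => fun n => (evo o a n).bind fun x => (evo o b n).bind fun y => Part.some (Nat.pair x y)
  | .comp a b => fun n => (evo o b n).bind (evo o a)
  | .prec a b => fun p =>
      Nat.rec (motive := fun _ => Part ℕ) (evo o a (Nat.unpair p).1) (fun y IH =>
        IH.bind fun i => evo o b (Nat.pair (Nat.unpair p).1 (Nat.pair y i))) (Nat.unpair p).2
  | .rfind a => fun x =>
      Nat.rfind fun n => (evo o a (Nat.pair x n)).map (fun m => decide (m = 0))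

theorem exists_oc {X : ℕ → ℕ} {f : ℕ →. ℕ} (h : Nat.RecursiveIn {(X : ℕ →. ℕ)} f) :
    ∃ a, ∀ n, evo (fun i => Part.some (X i)) a n = f n := by
  induction h with
  | zero => exact ⟨.zero, fun n => rfl⟩
  | succ => exact ⟨.succ, fun n => rfl⟩
  | left => exact ⟨.left, fun n => rfl⟩
  | right => exact ⟨.right, fun n => rfl⟩
  | oracle k hk =>
    rw [Set.mem_singleton_iff] at hk
    subst hk
    exact ⟨.oracle, fun n => rfl⟩
  | pair _ _ iha ihb =>
    obtain ⟨a, ha⟩ := iha; obtain ⟨b, hb⟩ := ihb
    refine ⟨.pair a b, fun n => ?_⟩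
    simp only [evo, ha, hb, Seq.seq, Part.map_eq_map]
    apply Part.ext
    intro m
    simp only [Part.mem_bind_iff, Part.mem_map_iff, Part.mem_some_iff]
    constructor
    · rintro ⟨x, hx, y, hy, rfl⟩
      exact ⟨_, ⟨x, hx, rfl⟩, y, hy, rfl⟩
    · rintro ⟨_, ⟨x, hx, rfl⟩, y, hy, rfl⟩
      exact ⟨x, hx, y, hy, rfl⟩
  | comp _ _ iha ihb =>
    obtain ⟨a, ha⟩ := iha; obtain ⟨b, hb⟩ := ihb
    refine ⟨.comp a b, fun n => ?_⟩
    have ha' : evo (fun i => Part.some (X i)) a = _ := funext ha
    simp only [evo, ha', hb]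
    rfl
  | prec _ _ iha ihb =>
    obtain ⟨a, ha⟩ := iha; obtain ⟨b, hb⟩ := ihb
    refine ⟨.prec a b, fun n => ?_⟩
    simp only [evo, ha, hb]
    rfl
  | rfind _ iha =>
    obtain ⟨a, ha⟩ := iha
    refine ⟨.rfind a, fun n => ?_⟩
    simp only [evo, ha]
    rfl

theorem evo_cont (X : ℕ → ℕ) (a : OC) : ∀ n v, v ∈ evo (fun i => Part.some (X i)) a n →
    ∃ u, ∀ o : ℕ → Part ℕ, (∀ i < u, X i ∈ o i) → v ∈ evo o a n := by
  induction a with
  | zero => intro n v h; exact ⟨0, fun _ _ => h⟩
  | succ => intro n v h; exact ⟨0, fun _ _ => h⟩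
  | left => intro n v h; exact ⟨0, fun _ _ => h⟩
  | right => intro n v h; exact ⟨0, fun _ _ => h⟩
  | oracle =>
    intro n v h
    simp only [evo, Part.mem_some_iff] at h ⊢
    exact ⟨n + 1, fun o ho => by rw [h]; exact ho n (by omega)⟩
  | pair a b iha ihb =>
    intro n m h
    simp only [evo, Part.mem_bind_iff, Part.mem_some_iff] at h ⊢
    obtain ⟨x, hx, y, hy, rfl⟩ := h
    obtain ⟨u, hu⟩ := iha n x hx
    obtain ⟨w, hw⟩ := ihb n y hy
    exact ⟨max u w, fun o ho => ⟨x, hu o fun i hi => ho i (by omega), y,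
      hw o fun i hi => ho i (by omega), rfl⟩⟩
  | comp a b iha ihb =>
    intro n m h
    simp only [evo, Part.mem_bind_iff] at h ⊢
    obtain ⟨x, hx, hm⟩ := h
    obtain ⟨u, hu⟩ := ihb n x hx
    obtain ⟨w, hw⟩ := iha x m hm
    exact ⟨max u w, fun o ho => ⟨x, hu o fun i hi => ho i (by omega),
      hw o fun i hi => ho i (by omega)⟩⟩
  | prec a b iha ihb =>
    intro p m h
    simp only [evo] at h ⊢
    generalize (Nat.unpair p).1 = x at h ⊢
    generalize (Nat.unpair p).2 = n at h ⊢
    induction n generalizing m with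
    | zero => exact iha x m h
    | succ n ih =>
      simp only [Part.mem_bind_iff] at h ⊢
      obtain ⟨i, hi, hm⟩ := h
      obtain ⟨u, hu⟩ := ih i hi
      obtain ⟨w, hw⟩ := ihb _ m hm
      exact ⟨max u w, fun o ho => ⟨i, hu o fun i hi => ho i (by omega),
        hw o fun i hi => ho i (by omega)⟩⟩
  | rfind a iha =>
    intro x m h
    simp only [evo] at h ⊢
    obtain ⟨h1, h2⟩ := Nat.mem_rfind.1 h
    obtain ⟨y, hy, hy0⟩ := (Part.mem_map_iff _).1 h1
    obtain ⟨u, hu⟩ := iha _ y hy
    have : ∀ k, ∃ w, k < m → ∀ o : ℕ → Part ℕ, (∀ i < w, X i ∈ o i) →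
        ∃ z, z ∈ evo o a (Nat.pair x k) ∧ decide (z = 0) = false := by
      intro k
      by_cases hk : k < m
      · obtain ⟨z, hz, hz0⟩ := (Part.mem_map_iff _).1 (h2 hk)
        obtain ⟨w, hw⟩ := iha _ z hz
        exact ⟨w, fun _ o ho => ⟨z, hw o ho, hz0⟩⟩
      · exact ⟨0, fun h => absurd h hk⟩
    choose w hw using this
    refine ⟨max u ((Finset.range m).sup w), fun o ho => ?_⟩
    refine Nat.mem_rfind.2 ⟨?_, fun {k} hk => ?_⟩
    · exact (Part.mem_map_iff _).2 ⟨y, hu o fun i hi => ho i (by omega), hy0⟩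
    · refine (Part.mem_map_iff _).2 (hw k hk o fun i hi => ho i ?_)
      have := Finset.le_sup (f := w) (Finset.mem_range.2 hk)
      omega

theorem evo_mono {o o' : ℕ → Part ℕ} (ho : ∀ i v, v ∈ o i → v ∈ o' i) (a : OC) :
    ∀ n v, v ∈ evo o a n → v ∈ evo o' a n := by
  induction a with
  | zero => intro n v h; exact h
  | succ => intro n v h; exact h
  | left => intro n v h; exact h
  | right => intro n v h; exact h
  | oracle => intro n v h; exact ho n v h
  | pair a b iha ihb =>
    intro n m h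
    simp only [evo, Part.mem_bind_iff, Part.mem_some_iff] at h ⊢
    obtain ⟨x, hx, y, hy, rfl⟩ := h
    exact ⟨x, iha _ _ hx, y, ihb _ _ hy, rfl⟩
  | comp a b iha ihb =>
    intro n m h
    simp only [evo, Part.mem_bind_iff] at h ⊢
    obtain ⟨x, hx, hm⟩ := h
    exact ⟨x, ihb _ _ hx, iha _ _ hm⟩
  | prec a b iha ihb =>
    intro p m h
    simp only [evo] at h ⊢
    generalize (Nat.unpair p).1 = x at h ⊢
    generalize (Nat.unpair p).2 = n at h ⊢
    induction n generalizing m with
    | zero => exact iha x m h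
    | succ n ih =>
      simp only [Part.mem_bind_iff] at h ⊢
      obtain ⟨i, hi, hm⟩ := h
      exact ⟨i, ih i hi, ihb _ m hm⟩
  | rfind a iha =>
    intro x m h
    simp only [evo] at h ⊢
    obtain ⟨h1, h2⟩ := Nat.mem_rfind.1 h
    obtain ⟨y, hy, hy0⟩ := (Part.mem_map_iff _).1 h1
    refine Nat.mem_rfind.2 ⟨?_, fun {k} hk => ?_⟩
    · exact (Part.mem_map_iff _).2 ⟨y, iha _ _ hy, hy0⟩
    · obtain ⟨z, hz, hz0⟩ := (Part.mem_map_iff _).1 (h2 hk)
      exact (Part.mem_map_iff _).2 ⟨z, iha _ _ hz, hz0⟩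

/-- A finite oracle. -/
def lo (σ : List ℕ) (i : ℕ) : Part ℕ := ((σ[i]? : Option ℕ) : Part ℕ)

theorem evo_partrec (a : OC) : Partrec (fun p : List ℕ × ℕ => evo (lo p.1) a p.2) := by
  have cs : Computable (fun p : List ℕ × ℕ => p.2) := Computable.snd
  have cf : Computable (fun p : List ℕ × ℕ => p.1) := Computable.fst
  induction a with
  | zero => exact (Computable.const 0).partrec
  | succ => exact (Computable.succ.comp cs).partrec
  | left => exact (Computable.fst.comp (Computable.unpair.comp cs)).partrec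
  | right => exact (Computable.snd.comp (Computable.unpair.comp cs)).partrec
  | oracle => exact Computable.ofOption (Computable.list_getElem?.comp cf cs)
  | pair a b iha ihb =>
    have h2 : Partrec₂ (fun (p : List ℕ × ℕ) (x : ℕ) =>
        (evo (lo p.1) b p.2).bind fun y => Part.some (Nat.pair x y)) := by
      refine Partrec.bind (ihb.comp Computable.fst) ?_
      exact (Primrec₂.natPair.to_comp.comp (Computable.snd.comp Computable.fst)
        Computable.snd).partrec
    exact Partrec.bind iha h2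
  | comp a b iha ihb =>
    have h2 : Partrec₂ (fun (p : List ℕ × ℕ) (x : ℕ) => evo (lo p.1) a x) :=
      iha.comp (Computable.pair (Computable.fst.comp Computable.fst) Computable.snd)
    exact Partrec.bind ihb h2
  | prec a b iha ihb =>
    have u1 : Computable (fun p : List ℕ × ℕ => (Nat.unpair p.2).1) :=
      Computable.fst.comp (Computable.unpair.comp cs)
    have u2 : Computable (fun p : List ℕ × ℕ => (Nat.unpair p.2).2) :=
      Computable.snd.comp (Computable.unpair.comp cs)
    have hg : Partrec (fun p : List ℕ × ℕ => evo (lo p.1) a (Nat.unpair p.2).1) :=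
      iha.comp (Computable.pair cf u1)
    have hh : Partrec₂ (fun (p : List ℕ × ℕ) (q : ℕ × ℕ) =>
        evo (lo p.1) b (Nat.pair (Nat.unpair p.2).1 (Nat.pair q.1 q.2))) := by
      have u3 : Computable (fun z : (List ℕ × ℕ) × (ℕ × ℕ) => (Nat.unpair z.1.2).1) :=
        u1.comp Computable.fst
      have u4 : Computable (fun z : (List ℕ × ℕ) × (ℕ × ℕ) => z.1.1) :=
        cf.comp Computable.fst
      have h3 : Computable (fun z : (List ℕ × ℕ) × (ℕ × ℕ) =>
          Nat.pair (Nat.unpair z.1.2).1 (Nat.pair z.2.1 z.2.2)) :=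
        Primrec₂.natPair.to_comp.comp u3
          (Primrec₂.natPair.to_comp.comp (Computable.fst.comp Computable.snd)
            (Computable.snd.comp Computable.snd))
      exact ihb.comp (Computable.pair u4 h3)
    exact Partrec.nat_rec u2 hg hh
  | rfind a iha =>
    have h2 : Partrec₂ (fun (p : List ℕ × ℕ) (n : ℕ) =>
        (evo (lo p.1) a (Nat.pair p.2 n)).map (fun m => decide (m = 0))) := by
      refine Partrec.map (iha.comp (Computable.pair (cf.comp Computable.fst)
        (Primrec₂.natPair.to_comp.comp (cs.comp Computable.fst) Computable.snd))) ?_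
      have h0 : PrimrecPred fun q : ((List ℕ × ℕ) × ℕ) × ℕ => q.2 = 0 :=
        Primrec.eq.comp Primrec.snd (Primrec.const 0)
      exact h0.decide.to_comp
    exact Partrec.rfind h2

/-- The word of the first `m` values. -/
def pre (X : ℕ → ℕ) (m : ℕ) : List ℕ := (List.range m).map X

/-- The set enumerated by the program `e` with oracle `X`. -/
def He (e : Code) (X : ℕ → ℕ) : Set ℕ :=
  {x | ∃ m t, Code.evaln t e (encode (pre X m, x)) = some 1}

theorem exists_He {X h : ℕ → ℕ} (hh : Nat.RecursiveIn {(X : ℕ →. ℕ)} (h : ℕ →. ℕ)) :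
    ∃ e : Code, He e X = {x | h x = 1} := by
  obtain ⟨a, ha⟩ := exists_oc hh
  obtain ⟨e, he⟩ := Code.exists_code.1 (evo_partrec a)
  have hev : ∀ σ x, 1 ∈ Code.eval e (encode (σ, x)) ↔ 1 ∈ evo (lo σ) a x := by
    intro σ x
    rw [he]
    simp
  refine ⟨e, ?_⟩
  ext x
  simp only [He, Set.mem_ofPred_eq]
  have key : (∃ m t, Code.evaln t e (encode (pre X m, x)) = some 1) ↔
      ∃ m, 1 ∈ evo (lo (pre X m)) a x := by
    refine exists_congr fun m => ?_
    rw [← hev, Code.evaln_complete]
    simp only [Option.mem_def]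
  rw [key]
  constructor
  · rintro ⟨m, hm⟩
    have h1 := evo_mono (o' := fun i => Part.some (X i)) (fun i v hv => by
      unfold lo pre at hv
      simp only [Part.mem_ofOption, Option.mem_def, List.getElem?_map, Option.map_eq_some_iff] at hv
      obtain ⟨j, hj, hv⟩ := hv
      have : j = i := by
        have := List.getElem?_eq_some_iff.1 hj
        obtain ⟨h1, h2⟩ := this
        simpa using h2.symm
      rw [← hv, this]; exact Part.mem_some _) a x 1 hm
    rw [ha x] at h1
    simpa [eq_comm] using h1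
  · intro hx
    have h1 : 1 ∈ evo (fun i => Part.some (X i)) a x := by
      rw [ha x]; simp [hx]
    obtain ⟨u, hu⟩ := evo_cont X a x 1 h1
    refine ⟨u, hu _ fun i hi => ?_⟩
    unfold lo pre
    simp [hi]

end X97.BD
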