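import Pool.Agent.X97.RH.Clos
import Pool.Agent.X97.RH.Meas
import Pool.Agent.X97.BD.Comp
import Pool.Agent.X97.BD.Use

/-! # Coin tossing -/

namespace X97.BD

open MeasureTheory Set X97.RH
open scoped ENNReal

/-- Density for a general probability measure. -/
theorem null_of_density' (ν : Measure (ℕ → ℕ)) [IsProbabilityMeasure ν]
    (S : Set (ℕ → ℕ)) (θ : ℝ≥0∞) (h0 : θ ≠ 0) (h1 : θ < 1)
    (h : ∀ x n, ν (PiNat.cylinder x n ∩ S) ≤ θ * ν (PiNat.cylinder x n)) : ν S = 0 := by
  have step : ∀ n (T : Set (Finset.range n → ℕ)),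
      ν (((fun (X : ℕ → ℕ) (i : Finset.range n) => X i) ⁻¹' T) ∩ S) ≤
        θ * ν ((fun (X : ℕ → ℕ) (i : Finset.range n) => X i) ⁻¹' T) := by
    intro n T
    set R : (ℕ → ℕ) → (Finset.range n → ℕ) := fun X i => X i with hR
    have hRm : Measurable R := measurable_pi_lambda _ fun i => measurable_pi_apply _
    have e : R ⁻¹' T = ⋃ t : T, R ⁻¹' {(t : Finset.range n → ℕ)} := by
      ext X; simp
    have hcyl : ∀ t : Finset.range n → ℕ, ∃ x, R ⁻¹' {t} = PiNat.cylinder x n := by
      intro t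
      refine ⟨fun i => if hi : i < n then t ⟨i, Finset.mem_range.2 hi⟩ else 0, ?_⟩
      ext X
      simp only [mem_preimage, mem_singleton_iff, PiNat.mem_cylinder_iff]
      constructor
      · rintro rfl i hi; simp [hi, hR]
      · intro hX
        funext i
        have := hX i (Finset.mem_range.1 i.2)
        simp only [Finset.mem_range.1 i.2, dif_pos] at this
        exact this
    calc ν (R ⁻¹' T ∩ S) = ν (⋃ t : T, R ⁻¹' {(t : Finset.range n → ℕ)} ∩ S) := by
          rw [e, iUnion_inter]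
      _ ≤ ∑' t : T, ν (R ⁻¹' {(t : Finset.range n → ℕ)} ∩ S) := measure_iUnion_le _
      _ ≤ ∑' t : T, θ * ν (R ⁻¹' {(t : Finset.range n → ℕ)}) := by
          refine ENNReal.tsum_le_tsum fun t => ?_
          obtain ⟨x, hx⟩ := hcyl t
          rw [hx]; exact h x n
      _ = θ * ∑' t : T, ν (R ⁻¹' {(t : Finset.range n → ℕ)}) := ENNReal.tsum_mul_left
      _ = θ * ν (R ⁻¹' T) := by
          rw [e, measure_iUnion]
          · intro t t' htt
            refine Disjoint.preimage _ ?_
            rw [disjoint_singleton]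
            exact fun hh => htt (Subtype.ext hh)
          · intro t
            exact hRm (Set.to_countable _).measurableSet
  have hopen : ∀ U : Set (ℕ → ℕ), IsOpen U → ν (U ∩ S) ≤ θ * ν U := by
    intro U hU
    set V : ℕ → Set (ℕ → ℕ) := fun n => {X | PiNat.cylinder X n ⊆ U} with hV
    have hmono : Monotone V := fun a b hab X hX => (PiNat.cylinder_anti X hab).trans hX
    have hUV : U = ⋃ n, V n := by
      ext X
      simp only [mem_iUnion]
      constructor
      · intro hX
        obtain ⟨W, ⟨x, n, rfl⟩, hXW, hWU⟩ :=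
          (PiNat.isTopologicalBasis_cylinders (fun _ : ℕ => ℕ)).exists_subset_of_mem_open hX hU
        refine ⟨n, ?_⟩
        simp only [hV, mem_ofPred_eq]
        rw [PiNat.mem_cylinder_iff_eq.1 hXW]
        exact hWU
      · rintro ⟨n, hn⟩
        exact hn (PiNat.self_mem_cylinder X n)
    have hVn : ∀ n, ν (V n ∩ S) ≤ θ * ν U := by
      intro n
      have hdet : Det n (V n) := by
        intro X X' hXX hX
        simp only [hV, mem_ofPred_eq] at hX ⊢
        rwa [PiNat.mem_cylinder_iff_eq.1 (PiNat.mem_cylinder_iff.2 (fun i hi => (hXX i hi).symm) :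
          X' ∈ PiNat.cylinder X n)]
      have h2 := step n ((fun (X : ℕ → ℕ) (i : Finset.range n) => X i) '' V n)
      rw [← hdet.eq_preimage] at h2
      refine h2.trans (mul_le_mul_right ?_ θ)
      exact measure_mono (by rw [hUV]; exact subset_iUnion _ _)
    have e1 : U ∩ S = ⋃ n, (V n ∩ S) := by rw [← iUnion_inter, ← hUV]
    have hmono2 : Monotone fun n => V n ∩ S := fun a b hab => inter_subset_inter_left _ (hmono hab)
    rw [e1, hmono2.measure_iUnion]
    exact iSup_le hVn
  by_contra hS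
  have hlt : ν S < ν S / θ := by
    rw [ENNReal.lt_div_iff_mul_lt (Or.inl h0) (Or.inl (h1.trans ENNReal.one_lt_top).ne)]
    calc ν S * θ < ν S * 1 := ENNReal.mul_lt_mul_right hS (measure_ne_top _ _) h1
      _ = ν S := mul_one _
  obtain ⟨U, hSU, hU, hlt2⟩ := S.exists_isOpen_lt_of_lt _ hlt
  have h3 := hopen U hU
  rw [inter_eq_self_of_subset_right hSU] at h3
  have h4 : θ * ν U < ν S := by
    rw [mul_comm]
    exact (ENNReal.lt_div_iff_mul_lt (Or.inl h0) (Or.inl (h1.trans ENNReal.one_lt_top).ne)).1 hlt2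
  exact absurd (h3.trans_lt h4) (lt_irrefl _)

/-- A fair coin. -/
noncomputable def lam2 : Measure ℕ := (2 : ℝ≥0∞)⁻¹ • Measure.dirac 0 + (2 : ℝ≥0∞)⁻¹ • Measure.dirac 1

theorem lam2_apply (T : Set ℕ) :
    lam2 T = (2 : ℝ≥0∞)⁻¹ * T.indicator 1 0 + (2 : ℝ≥0∞)⁻¹ * T.indicator 1 1 := by
  simp [lam2]

instance : IsProbabilityMeasure lam2 := ⟨by
  rw [lam2_apply]; simp [ENNReal.inv_two_add_inv_two]⟩

theorem lam2_lt {v : ℕ} (hv : v < 2) : lam2 {v} = 2⁻¹ := by
  rw [lam2_apply]
  interval_cases v <;> simp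

theorem lam2_ge {v : ℕ} (hv : 2 ≤ v) : lam2 {v} = 0 := by
  rw [lam2_apply]
  have h0 : (0 : ℕ) ≠ v := by omega
  have h1 : (1 : ℕ) ≠ v := by omega
  simp [h0, h1]

theorem lam2_le (v : ℕ) : lam2 {v} ≤ 2⁻¹ := by
  rcases lt_or_ge v 2 with h | h
  · rw [lam2_lt h]
  · rw [lam2_ge h]; exact zero_le

/-- Independent coins. -/
noncomputable def mu2 : Measure (ℕ → ℕ) := Measure.infinitePi fun _ => lam2

instance : IsProbabilityMeasure mu2 := by unfold mu2; infer_instance

theorem pre_eq_iff {X Y : ℕ → ℕ} {n : ℕ} : pre X n = pre Y n ↔ ∀ i < n, X i = Y i := by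
  unfold pre
  constructor
  · intro h i hi
    exact List.map_inj_left.1 h i (List.mem_range.2 hi)
  · intro h
    exact List.map_inj_left.2 fun i hi => h i (List.mem_range.1 hi)

theorem pre_length (X : ℕ → ℕ) (n : ℕ) : (pre X n).length = n := by simp [pre]

theorem pre_getD (σ : List ℕ) : pre (fun i => σ.getD i 0) σ.length = σ := by
  apply List.ext_getElem
  · simp [pre]
  · intro i h1 h2
    simp [pre, List.getD, h2]

/-- The strings of the set. -/
theorem cyl_eq (x : ℕ → ℕ) (n : ℕ) : PiNat.cylinder x n = {X | pre X n = pre x n} := by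
  ext X
  rw [PiNat.mem_cylinder_iff]
  exact pre_eq_iff.symm

theorem mu2_cyl (x : ℕ → ℕ) (n : ℕ) : mu2 {X | pre X n = pre x n} =
    ∏ i ∈ Finset.range n, lam2 {x i} := by
  have : {X | pre X n = pre x n} = Set.pi (Finset.range n : Set ℕ) fun i => {x i} := by
    ext X
    simp only [mem_ofPred_eq, pre_eq_iff, Set.mem_pi, Finset.coe_range, mem_Iio, mem_singleton_iff]
  rw [this]
  unfold mu2
  exact Measure.infinitePi_pi _ fun i _ => measurableSet_singleton _

theorem mu2_cyl_bin {x : ℕ → ℕ} {n : ℕ} (hx : ∀ i < n, x i < 2) :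
    mu2 {X | pre X n = pre x n} = (2 : ℝ≥0∞)⁻¹ ^ n := by
  rw [mu2_cyl, Finset.prod_congr rfl fun i hi => lam2_lt (hx i (Finset.mem_range.1 hi)),
    Finset.prod_const, Finset.card_range]

theorem mu2_cyl_nbin {x : ℕ → ℕ} {n : ℕ} (hx : ¬ ∀ i < n, x i < 2) :
    mu2 {X | pre X n = pre x n} = 0 := by
  push Not at hx
  obtain ⟨i, hi, h2⟩ := hx
  rw [mu2_cyl]
  exact Finset.prod_eq_zero (Finset.mem_range.2 hi) (lam2_ge h2)

theorem ae_bin : ∀ᵐ (X : ℕ → ℕ) ∂mu2, ∀ n, X n < 2 := by
  rw [ae_all_iff]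
  intro n
  have h1 := (measurePreserving_eval_infinitePi (fun _ : ℕ => lam2) n).measure_preimage
    (s := {v | ¬ v < 2}) (Set.to_countable _).measurableSet.nullMeasurableSet
  rw [ae_iff]
  have h2 : lam2 {v | ¬ v < 2} = 0 := by
    rw [lam2_apply]; simp
  rw [h2] at h1
  exact h1

theorem mem_allStr {t : ℕ} {σ : List ℕ} : σ ∈ allStr t ↔ σ.length = t ∧ ∀ x ∈ σ, x < 2 := by
  induction t generalizing σ with
  | zero =>
    simp only [allStr, List.mem_singleton]
    constructor
    · rintro rfl; simp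
    · rintro ⟨h, -⟩; exact List.length_eq_zero_iff.1 h
  | succ t ih =>
    simp only [allStr, List.mem_flatMap, List.mem_cons, List.not_mem_nil, or_false]
    constructor
    · rintro ⟨τ, hτ, h | h⟩
      · subst h
        obtain ⟨h1, h2⟩ := ih.1 hτ
        refine ⟨by simp [h1], fun x hx => ?_⟩
        rcases List.mem_append.1 hx with hx | hx
        · exact h2 x hx
        · simp at hx; omega
      · subst h
        obtain ⟨h1, h2⟩ := ih.1 hτ
        refine ⟨by simp [h1], fun x hx => ?_⟩
        rcases List.mem_append.1 hx with hx | hx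
        · exact h2 x hx
        · simp at hx; omega
    · rintro ⟨h1, h2⟩
      have hne : σ ≠ [] := by rintro rfl; simp at h1
      have e := List.dropLast_append_getLast hne
      refine ⟨σ.dropLast, ih.2 ⟨by simp [h1], fun x hx => h2 x (List.mem_of_mem_dropLast hx)⟩, ?_⟩
      have hl := h2 _ (List.getLast_mem hne)
      have : σ.getLast hne = 0 ∨ σ.getLast hne = 1 := by omega
      rcases this with h | h
      · left; rw [h] at e; exact e.symm
      · right; rw [h] at e; exact e.symm

theorem allStr_nodup (t : ℕ) : (allStr t).Nodup := by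
  induction t with
  | zero => simp [allStr]
  | succ t ih =>
    rw [allStr, List.nodup_flatMap]
    refine ⟨fun σ _ => by simp, ?_⟩
    refine ih.imp ?_
    intro σ τ hne
    simp only [Function.onFun, List.disjoint_cons_left, List.mem_cons, List.not_mem_nil,
      or_false, List.disjoint_nil_left, and_true]
    refine ⟨?_, ?_⟩
    · rintro (h | h)
      · exact hne (List.append_cancel_right h)
      · have := (List.append_inj' h rfl).2; simp at this
    · rintro (h | h)
      · have := (List.append_inj' h rfl).2; simp at this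
      · exact hne (List.append_cancel_right h)

theorem count_meas (t : ℕ) (p : List ℕ → Bool) :
    mu2 {X | pre X t ∈ (allStr t).filter p} =
      ((allStr t).filter p).length * (2 : ℝ≥0∞)⁻¹ ^ t := by
  classical
  set L := (allStr t).filter p with hL
  have hnd : L.Nodup := (allStr_nodup t).filter _
  have e : {X | pre X t ∈ L} = ⋃ σ ∈ L.toFinset, {X | pre X t = σ} := by
    ext X; simp
  have hm : ∀ σ ∈ L.toFinset, mu2 {X | pre X t = σ} = (2 : ℝ≥0∞)⁻¹ ^ t := by
    intro σ hσ
    have h1 := (List.mem_filter.1 (List.mem_toFinset.1 hσ)).1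
    obtain ⟨h2, h3⟩ := mem_allStr.1 h1
    have h4 : pre (fun i => σ.getD i 0) t = σ := by rw [← h2]; exact pre_getD σ
    have h5 := mu2_cyl_bin (x := fun i => σ.getD i 0) (n := t) (fun i hi => by
      have : i < σ.length := by omega
      simp only [List.getD, List.getElem?_eq_getElem this, Option.getD_some]
      exact h3 _ (List.getElem_mem this))
    rw [h4] at h5; exact h5
  rw [e, measure_biUnion_finset, Finset.sum_congr rfl hm, Finset.sum_const,
    List.toFinset_card_of_nodup hnd, nsmul_eq_mul]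
  · intro σ _ τ _ hne
    rw [Function.onFun, Set.disjoint_left]
    intro X h1 h2
    exact hne (h1.symm.trans h2)
  · intro σ _
    refine Det.measurableSet (m := t) ?_
    intro X X' h hX
    have : pre X' t = pre X t := pre_eq_iff.2 fun i hi => (h i hi).symm
    exact this.trans hX

/-! ### Functions that avoid a given partial function -/

/-- The code of a block of bits. -/
def blk (k : ℕ) (X : ℕ → ℕ) (e : ℕ) : ℕ := hist (fun j => X (Nat.pair e j)) (e + k + 1)

theorem blk_RI (k : ℕ) (X : ℕ → ℕ) {O : Set (ℕ →. ℕ)} (hX : RI O X) : RI O (blk k X) := by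
  have hz : RI O (fun _ => 0) := RI.prim1 (Primrec.const 0)
  have u1 : RI O (fun p : ℕ => p.unpair.1) := RI.prim1 (Primrec.fst.comp Primrec.unpair)
  have u2 : RI O (fun p : ℕ => p.unpair.2) := RI.prim1 (Primrec.snd.comp Primrec.unpair)
  have hid : RI O (fun n => n) := RI.prim1 Primrec.id
  have hk : RI O (fun n => n + k + 1) :=
    RI.prim1 (Primrec.succ.comp (Primrec.nat_add.comp Primrec.id (Primrec.const k)))
  have hs : RI O (fun p : ℕ => Nat.pair p.unpair.2.unpair.2
      (X (Nat.pair p.unpair.1 p.unpair.2.unpair.1))) :=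
    (u2.comp u2).pair (hX.comp (u1.pair (u1.comp u2)))
  have := (hz.prec hs).comp (hid.pair hk)
  refine Nat.RecursiveIn.of_eq this fun n => ?_
  simp [blk, hist]

theorem blk_meas (k e v : ℕ) : mu2 {X | blk k X e = v} ≤ (2 : ℝ≥0∞)⁻¹ ^ (e + k + 1) := by
  classical
  by_cases h : ∃ X0, blk k X0 e = v
  swap
  · have : {X | blk k X e = v} = ∅ := by
      ext X; simp only [mem_ofPred_eq, mem_empty_iff_false, iff_false]; exact fun hX => h ⟨X, hX⟩
    rw [this, measure_empty]; exact zero_le
  obtain ⟨X0, hX0⟩ := h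
  have hinj : Function.Injective (fun j => Nat.pair e j) := fun a b hab => by
    simpa [Nat.pair_eq_pair] using hab
  calc mu2 {X | blk k X e = v} ≤ mu2 (Set.pi
        (((Finset.range (e + k + 1)).image (fun j => Nat.pair e j) : Finset ℕ) : Set ℕ)
        (fun i => {X0 i})) := by
        refine measure_mono fun X hX => ?_
        intro i hi
        obtain ⟨j, hj, rfl⟩ := Finset.mem_image.1 (Finset.mem_coe.1 hi)
        exact hist_inj (hX.trans hX0.symm) j (Finset.mem_range.1 hj)
    _ = ∏ i ∈ (Finset.range (e + k + 1)).image (fun j => Nat.pair e j), lam2 {X0 i} := by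
        unfold mu2
        exact Measure.infinitePi_pi _ fun i _ => measurableSet_singleton _
    _ ≤ ∏ i ∈ (Finset.range (e + k + 1)).image (fun j => Nat.pair e j), (2 : ℝ≥0∞)⁻¹ :=
        Finset.prod_le_prod' fun i _ => lam2_le _
    _ = (2 : ℝ≥0∞)⁻¹ ^ (e + k + 1) := by
        rw [Finset.prod_const, Finset.card_image_of_injective _ hinj, Finset.card_range]

theorem ae_dnc (ψ : ℕ →. ℕ) : ∀ᵐ (X : ℕ → ℕ) ∂mu2, ∃ k, ∀ e, blk k X e ∉ ψ e := by
  rw [ae_iff]
  have h1 : ∀ k : ℕ, mu2 {X | ¬ ∃ k, ∀ e, blk k X e ∉ ψ e} ≤ (2 : ℝ≥0∞)⁻¹ ^ k := by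
    intro k
    calc mu2 {X | ¬ ∃ k, ∀ e, blk k X e ∉ ψ e} ≤ mu2 (⋃ e, {X | blk k X e ∈ ψ e}) := by
          refine measure_mono fun X hX => ?_
          simp only [mem_ofPred_eq, not_exists, not_forall, not_not] at hX
          obtain ⟨e, he⟩ := hX k
          exact mem_iUnion.2 ⟨e, he⟩
      _ ≤ ∑' e, mu2 {X | blk k X e ∈ ψ e} := measure_iUnion_le _
      _ ≤ ∑' e, (2 : ℝ≥0∞)⁻¹ ^ (e + k + 1) := by
          refine ENNReal.tsum_le_tsum fun e => ?_
          by_cases hd : ∃ v, v ∈ ψ e
          · obtain ⟨v, hv⟩ := hd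
            refine (measure_mono fun X hX => ?_).trans (blk_meas k e v)
            exact Part.mem_unique hX hv
          · have : {X | blk k X e ∈ ψ e} = ∅ := by
              ext X; simp only [mem_ofPred_eq, mem_empty_iff_false, iff_false]
              exact fun hX => hd ⟨_, hX⟩
            rw [this, measure_empty]; exact zero_le
      _ = (∑' e : ℕ, (2 : ℝ≥0∞)⁻¹ ^ (e + 1)) * (2 : ℝ≥0∞)⁻¹ ^ k := by
          rw [← ENNReal.tsum_mul_right]
          refine tsum_congr fun e => ?_
          rw [← pow_add]; congr 1; omega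
      _ = (2 : ℝ≥0∞)⁻¹ ^ k := by
          rw [ENNReal.tsum_geometric_add_one, ENNReal.one_sub_inv_two, inv_inv,
            ENNReal.inv_mul_cancel (by simp) (by simp), one_mul]
  have h2 : (2 : ℝ≥0∞)⁻¹ < 1 := by norm_num
  have := ENNReal.tendsto_pow_atTop_nhds_zero_of_lt_one h2
  exact le_antisymm (ge_of_tendsto' this h1) zero_le

end X97.BD
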