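import Pool.Agent.X97.BD.Verif

/-! # The computable colouring has no solution computable from a random sequence of coins -/

namespace X97.BD

open MeasureTheory Set X97.RH
open scoped ENNReal
open Nat.Partrec (Code)
open Encodable

/-- The cylinder of a string. -/
def Cy (τ : List ℕ) : Set (ℕ → ℕ) := {X | pre X τ.length = τ}

theorem Cy_meas (τ : List ℕ) : MeasurableSet (Cy τ) := by
  refine Det.measurableSet (m := τ.length) ?_
  intro X X' h hX
  have : pre X' τ.length = pre X τ.length := pre_eq_iff.2 fun i hi => (h i hi).symm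
  exact this.trans hX

theorem Cy_le (τ : List ℕ) : mu2 (Cy τ) ≤ (2 : ℝ≥0∞)⁻¹ ^ τ.length := by
  have e : Cy τ = {X | pre X τ.length = pre (fun i => τ.getD i 0) τ.length} := by
    unfold Cy; rw [pre_getD]
  rw [e]
  by_cases h : ∀ i < τ.length, (fun i => τ.getD i 0) i < 2
  · rw [mu2_cyl_bin h]
  · rw [mu2_cyl_nbin h]; exact zero_le

theorem Cy_cases (τ : List ℕ) : mu2 (Cy τ) = 0 ∨ mu2 (Cy τ) = (2 : ℝ≥0∞)⁻¹ ^ τ.length := by
  have e : Cy τ = {X | pre X τ.length = pre (fun i => τ.getD i 0) τ.length} := by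
    unfold Cy; rw [pre_getD]
  rw [e]
  by_cases h : ∀ i < τ.length, (fun i => τ.getD i 0) i < 2
  · right; rw [mu2_cyl_bin h]
  · left; rw [mu2_cyl_nbin h]

theorem half_pow_toReal (n : ℕ) : ((2 : ℝ≥0∞)⁻¹ ^ n).toReal = (1 / 2) ^ n := by
  rw [ENNReal.toReal_pow, ENNReal.toReal_inv]; norm_num

/-- The real number version of the count. -/
theorem count_real (e : Code) (τ : List ℕ) (t P Q D : ℕ) :
    (mu2 {X | pre X t ∈ goodL e τ t P Q D}).toReal = (goodL e τ t P Q D).length * (1 / 2) ^ t := by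
  unfold goodL
  rw [count_meas, ENNReal.toReal_mul, half_pow_toReal]
  simp

theorem to_tht {a b : ℝ≥0∞} (ha : a ≠ ⊤) (hb : b ≠ ⊤) (h : a.toReal ≤ 3999 / 4000 * b.toReal) :
    a ≤ tht * b := by
  rw [← ENNReal.toReal_le_toReal ha (ENNReal.mul_ne_top (by unfold tht; exact ENNReal.ofReal_ne_top)
    hb), ENNReal.toReal_mul]
  unfold tht
  rw [ENNReal.toReal_ofReal (by norm_num)]
  exact h

theorem caseA {i : ℕ} {e : Code} {τ : List ℕ} {J : ℕ × ℕ × ℕ} {n : ℕ} (hr : req i = (e, τ))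
    (hT : Test (req i) J (cd n)) (hL : Lim (i + 1) (cd n).2) :
    mu2 (Cy τ ∩ {X | SolSet cc (He e X)}) ≤ tht * mu2 (Cy τ) := by
  obtain ⟨s0, hs0⟩ := bt_lim hL
  rw [hr] at hT
  generalize cd n = c at hT hs0
  obtain ⟨t, P, Q, N⟩ := c
  obtain ⟨h1, h2, -, -, h5⟩ := hT
  simp only at h1 h2 h5
  set L := goodL e τ t P Q (N + 1) with hLdef
  set D : Set (ℕ → ℕ) := {X | pre X t ∈ L} with hD
  have hs0' : ∀ s, s0 ≤ s → bt s ∈ Icc ((P : ℝ) / ((N + 1 : ℕ) : ℝ)) ((Q : ℝ) / ((N + 1 : ℕ) : ℝ)) := by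
    intro s hs
    have := hs0 s hs
    unfold IJ at this
    push_cast
    exact this
  have hDC : D ⊆ Cy τ := by
    intro X hX
    have hX' := (List.mem_filter.1 (show pre X t ∈ goodL e τ t P Q (N + 1) from hX)).2
    simp only [decide_eq_true_eq] at hX'
    have h6 := hX'.1
    rw [pre_take X h1] at h6
    exact h6
  have hdis : Cy τ ∩ {X | SolSet cc (He e X)} ⊆ Cy τ \ D := by
    rintro X ⟨hXC, hsol⟩
    refine ⟨hXC, fun hX => ?_⟩
    have hX' := (List.mem_filter.1 (show pre X t ∈ goodL e τ t P Q (N + 1) from hX)).2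
    simp only [decide_eq_true_eq] at hX'
    obtain ⟨-, a, ha, b, hb, d, hd, hab, hbd, ia, ib, id, hG⟩ := hX'
    exact not_sol (Nat.succ_pos N) hs0' hab hbd hG (Hm_sub e t X ia) (Hm_sub e t X ib)
      (Hm_sub e t X id) hsol
  have hDm : MeasurableSet D := by
    refine Det.measurableSet (m := t) ?_
    intro X X' h hX
    have : pre X' t = pre X t := pre_eq_iff.2 fun i hi => (h i hi).symm
    simp only [hD, mem_ofPred_eq] at hX ⊢
    rw [this]; exact hX
  refine (measure_mono hdis).trans ?_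
  rw [measure_sdiff hDC hDm.nullMeasurableSet (measure_ne_top _ _)]
  refine to_tht (tsub_le_self.trans_lt (measure_lt_top mu2 _)).ne (measure_ne_top _ _) ?_
  rw [ENNReal.toReal_sub_of_le (measure_mono hDC) (measure_ne_top _ _)]
  have h6 : (mu2 (Cy τ)).toReal ≤ (1 / 2) ^ τ.length := by
    rw [← half_pow_toReal]
    exact ENNReal.toReal_mono (by simp) (Cy_le τ)
  have h7 : (mu2 D).toReal = L.length * (1 / 2) ^ t := count_real e τ t P Q (N + 1)
  have h8 : (1 / 2 : ℝ) ^ τ.length / 4000 ≤ L.length * (1 / 2) ^ t := by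
    have h9 : (2 : ℝ) ^ t ≤ 4000 * (2 ^ τ.length * L.length) := by exact_mod_cast h5
    have p1 : (0 : ℝ) < 2 ^ t := by positivity
    have p2 : (0 : ℝ) < 2 ^ τ.length := by positivity
    rw [one_div, inv_pow, inv_pow, ← div_eq_mul_inv, le_div_iff₀ p1, div_mul_eq_mul_div,
      div_le_iff₀ (by norm_num), inv_mul_le_iff₀ p2]
    linarith
  rw [h7]
  linarith

theorem ar1 {k N u P : ℕ} (h : ((k : ℝ) + 1 / 3 - 1 / 20) * ((N : ℝ) + 1) ≤ u * P) :
    (60 * k + 17) * (N + 1) ≤ 60 * (u * P) := by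
  have h1 : (60 * (k : ℝ) + 17) * ((N : ℝ) + 1) ≤ 60 * ((u : ℝ) * P) := by
    calc (60 * (k : ℝ) + 17) * ((N : ℝ) + 1)
        = 60 * (((k : ℝ) + 1 / 3 - 1 / 20) * ((N : ℝ) + 1)) := by ring
      _ ≤ 60 * ((u : ℝ) * P) := by linarith
  exact_mod_cast h1

theorem ar2 {k N u Q : ℕ} (h : (u : ℝ) * (Q : ℝ) ≤ ((k : ℝ) + 1 / 3 + 1 / 20) * ((N : ℝ) + 1)) :
    60 * (u * Q) ≤ (60 * k + 23) * (N + 1) := by
  have h1 : 60 * ((u : ℝ) * Q) ≤ (60 * (k : ℝ) + 23) * ((N : ℝ) + 1) := by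
    calc 60 * ((u : ℝ) * Q) ≤ 60 * (((k : ℝ) + 1 / 3 + 1 / 20) * ((N : ℝ) + 1)) := by linarith
      _ = (60 * (k : ℝ) + 23) * ((N : ℝ) + 1) := by ring
  exact_mod_cast h1

theorem ar3 {k N u P : ℕ} (h : ((k : ℝ) + 2 / 3 - 1 / 20) * ((N : ℝ) + 1) ≤ u * P) :
    (60 * k + 37) * (N + 1) ≤ 60 * (u * P) := by
  have h1 : (60 * (k : ℝ) + 37) * ((N : ℝ) + 1) ≤ 60 * ((u : ℝ) * P) := by
    calc (60 * (k : ℝ) + 37) * ((N : ℝ) + 1)
        = 60 * (((k : ℝ) + 2 / 3 - 1 / 20) * ((N : ℝ) + 1)) := by ring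
      _ ≤ 60 * ((u : ℝ) * P) := by linarith
  exact_mod_cast h1

theorem ar4 {k N u Q : ℕ} (h : (u : ℝ) * (Q : ℝ) ≤ ((k : ℝ) + 2 / 3 + 1 / 20) * ((N : ℝ) + 1)) :
    60 * (u * Q) ≤ (60 * k + 43) * (N + 1) := by
  have h1 : 60 * ((u : ℝ) * Q) ≤ (60 * (k : ℝ) + 43) * ((N : ℝ) + 1) := by
    calc 60 * ((u : ℝ) * Q) ≤ 60 * (((k : ℝ) + 2 / 3 + 1 / 20) * ((N : ℝ) + 1)) := by linarith
      _ = (60 * (k : ℝ) + 43) * ((N : ℝ) + 1) := by ring
  exact_mod_cast h1

theorem caseB' {i : ℕ} {e : Code} {τ : List ℕ} {J : ℕ × ℕ × ℕ} (hr : req i = (e, τ))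
    (hJ : J.1 < J.2.1) (hJ1 : (J.2.1 : ℝ) / (J.2.2 + 1) ≤ 1)
    (hT : ∀ n, ¬ Test (req i) J (cd n)) :
    mu2 (Cy τ ∩ {X | SolSet cc (He e X)}) ≤ tht * mu2 (Cy τ) := by
  by_contra hcon
  push Not at hcon
  have hbig : tht * mu2 (Cy τ) < mu2 (Cy τ ∩ {X | (⋃ m, Hm e m X).Infinite}) := by
    refine hcon.trans_le (measure_mono ?_)
    rintro X ⟨hX, hs⟩
    refine ⟨hX, ?_⟩
    simp only [mem_ofPred_eq]
    rw [iUnion_Hm]; exact hs.1
  have hN1 : (0 : ℝ) < (J.2.2 : ℝ) + 1 := by positivity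
  have hpq : (J.1 : ℝ) / (J.2.2 + 1) < (J.2.1 : ℝ) / (J.2.2 + 1) := by
    have : (J.1 : ℝ) < J.2.1 := by exact_mod_cast hJ
    exact div_lt_div_of_pos_right this hN1
  obtain ⟨α, hα, U, m, hD⟩ := caseB mu2 (app_Hm e) (Cy_meas τ) hpq hbig
  have hne : mu2 (Cy τ) ≠ 0 := by
    intro h0
    have : mu2 (Cy τ ∩ {X | SolSet cc (He e X)}) ≤ mu2 (Cy τ) := measure_mono inter_subset_left
    rw [h0] at this hcon
    rw [mul_zero] at hcon
    exact absurd hcon (not_lt.2 this)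
  have hCy : (mu2 (Cy τ)).toReal = (1 / 2) ^ τ.length := by
    rcases Cy_cases τ with h | h
    · exact absurd h hne
    · rw [h, half_pow_toReal]
  set t := max (m + 1) τ.length with ht
  have hα0 : 0 < α := lt_of_le_of_lt (by positivity) hα.1
  -- a large denominator
  obtain ⟨N, hN⟩ := exists_nat_gt (max ((60 : ℝ) * (t : ℝ)) (max (1 / (α - (J.1 : ℝ) / (J.2.2 + 1)))
    (1 / ((J.2.1 : ℝ) / (J.2.2 + 1) - α))))
  have hN60 : (60 * t : ℝ) < N := (le_max_left _ _).trans_lt hN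
  have hNp : 1 / (α - (J.1 : ℝ) / (J.2.2 + 1)) < N :=
    ((le_max_left _ _).trans (le_max_right _ _)).trans_lt hN
  have hNq : 1 / ((J.2.1 : ℝ) / (J.2.2 + 1) - α) < N :=
    ((le_max_right _ _).trans (le_max_right _ _)).trans_lt hN
  set D : ℝ := (N : ℝ) + 1 with hDdef
  have hDpos : 0 < D := by rw [hDdef]; positivity
  have hinv1 : 1 / D < α - (J.1 : ℝ) / (J.2.2 + 1) := by
    have h0 : 0 < α - (J.1 : ℝ) / (J.2.2 + 1) := by linarith [hα.1]
    rw [div_lt_iff₀ h0] at hNp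
    rw [div_lt_iff₀ hDpos]
    nlinarith
  have hinv2 : 1 / D < (J.2.1 : ℝ) / (J.2.2 + 1) - α := by
    have h0 : 0 < (J.2.1 : ℝ) / (J.2.2 + 1) - α := by linarith [hα.2]
    rw [div_lt_iff₀ h0] at hNq
    rw [div_lt_iff₀ hDpos]
    nlinarith
  set P : ℕ := ⌊α * D⌋₊ with hP
  have hP1 : (P : ℝ) ≤ α * D := Nat.floor_le (by positivity)
  have hP2 : α * D < P + 1 := Nat.lt_floor_add_one _
  have hPD : (P : ℝ) / D ≤ α := by rw [div_le_iff₀ hDpos]; exact hP1
  have hQD : α ≤ ((P + 1 : ℕ) : ℝ) / D := by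
    rw [le_div_iff₀ hDpos]; push_cast; linarith
  have hPD2 : α - 1 / D ≤ (P : ℝ) / D := by
    rw [le_div_iff₀ hDpos, sub_mul, div_mul_cancel₀ _ hDpos.ne']; linarith
  have hQD2 : ((P + 1 : ℕ) : ℝ) / D ≤ α + 1 / D := by
    rw [div_le_iff₀ hDpos, add_mul, div_mul_cancel₀ _ hDpos.ne']; push_cast; linarith
  -- the test succeeds
  obtain ⟨n, hn⟩ : ∃ n, cd n = (t, P, P + 1, N) :=
    ⟨encode (t, P, P + 1, N), by unfold cd; exact Denumerable.ofNat_encode _⟩
  refine hT n ?_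
  rw [hn, hr]
  refine ⟨le_max_right _ _, Nat.lt_succ_self P, ?_, ?_, ?_⟩
  · simp only
    have h1 : (J.1 : ℝ) / (J.2.2 + 1) ≤ (P : ℝ) / D := by linarith
    rw [div_le_div_iff₀ hN1 hDpos] at h1
    rw [hDdef] at h1
    exact_mod_cast h1
  · simp only
    have h1 : ((P + 1 : ℕ) : ℝ) / D ≤ (J.2.1 : ℝ) / (J.2.2 + 1) := by linarith
    rw [div_le_div_iff₀ hDpos hN1] at h1
    rw [hDdef] at h1
    exact_mod_cast h1
  · simp only
    set L := goodL e τ t P (P + 1) (N + 1) with hL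
    have hsub : Dm (Hm e) (Cy τ) U m α ∩ {X | ∀ n, X n < 2} ⊆ {X | pre X t ∈ L} := by
      rintro X ⟨⟨⟨a, b, d⟩, hts, ⟨k, l, hk, hl⟩, hXC, xa, xb, xd⟩, hbin⟩
      obtain ⟨⟨t1, t2, t3⟩, s1, s2, s3, s4⟩ := mem_Ts.1 hts
      simp only at xa xb xd hk hl t1 t2 t3 s1 s2 s3 s4
      have hmt : m ≤ t := by omega
      refine List.mem_filter.2 ⟨mem_allStr.2 ⟨pre_length X t, fun x hx => ?_⟩, ?_⟩
      · unfold pre at hx
        obtain ⟨j, -, rfl⟩ := List.mem_map.1 hx
        exact hbin j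
      · simp only [decide_eq_true_eq]
        refine ⟨?_, a, by omega, b, by omega, d, by omega, s1, s3,
          (app_Hm e).mono m t X hmt xa, (app_Hm e).mono m t X hmt xb,
          (app_Hm e).mono m t X hmt xd, ?_⟩
        · rw [pre_take X (le_max_right _ _)]; exact hXC
        · have hu : ((b - a : ℕ) : ℝ) ≤ t := by
            have : b - a ≤ t := by omega
            exact_mod_cast this
          have hv : ((d - a : ℕ) : ℝ) ≤ t := by
            have : d - a ≤ t := by omega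
            exact_mod_cast this
          have key : ∀ (w : ℕ) (z : ℤ) (c : ℝ), (w : ℝ) ≤ t → 1 / 3 ≤ c → c ≤ 2 / 3 →
              |(w : ℝ) * α - z - c| ≤ 1 / 30 → α ≤ 1 →
              ∃ k < w + 1, (k : ℝ) = z ∧
                (z + c - 1 / 20) * D ≤ w * P ∧ (w : ℝ) * ((P + 1 : ℕ) : ℝ) ≤ (z + c + 1 / 20) * D := by
            intro w z c hw hc1 hc2 hz hα1
            rw [abs_le] at hz
            have hw0 : (0 : ℝ) ≤ w := Nat.cast_nonneg w
            have hwa : 0 ≤ (w : ℝ) * α := mul_nonneg hw0 hα0.le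
            have hwa1 : (w : ℝ) * α ≤ w := by
              have := mul_le_mul_of_nonneg_left hα1 hw0
              rwa [mul_one] at this
            have z0 : (-1 : ℤ) < z := by
              have : ((-1 : ℤ) : ℝ) < (z : ℝ) := by push_cast; linarith [hz.1, hz.2]
              exact_mod_cast this
            have z1 : z < w + 1 := by
              have : (z : ℝ) < ((w + 1 : ℕ) : ℝ) := by push_cast; linarith [hz.1, hz.2]
              exact_mod_cast this
            have wD : (w : ℝ) / D ≤ 1 / 60 := by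
              rw [div_le_div_iff₀ hDpos (by norm_num)]
              rw [hDdef]; linarith
            have wP : (w : ℝ) * α - w / D ≤ w * (P / D) := by
              have := mul_le_mul_of_nonneg_left hPD2 hw0
              have e1 : (w : ℝ) * (α - 1 / D) = w * α - w / D := by ring
              linarith
            have wQ : (w : ℝ) * (((P + 1 : ℕ) : ℝ) / D) ≤ w * α + w / D := by
              have := mul_le_mul_of_nonneg_left hQD2 hw0
              have e1 : (w : ℝ) * (α + 1 / D) = w * α + w / D := by ring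
              linarith
            refine ⟨z.toNat, by omega, ?_, ?_, ?_⟩
            · have : ((z.toNat : ℤ)) = z := Int.toNat_of_nonneg (by omega)
              exact_mod_cast this
            · have h1 : (z : ℝ) + c - 1 / 20 ≤ w * (P / D) := by linarith [hz.1, hz.2]
              rw [← mul_div_assoc, le_div_iff₀ hDpos] at h1
              exact h1
            · have h1 : (w : ℝ) * (((P + 1 : ℕ) : ℝ) / D) ≤ z + c + 1 / 20 := by
                linarith [hz.1, hz.2]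
              rw [← mul_div_assoc, div_le_iff₀ hDpos] at h1
              exact h1
          have hαle : α ≤ 1 := hα.2.le.trans hJ1
          obtain ⟨k', hk1, hk2, hk3, hk4⟩ := key (b - a) k (1 / 3) hu (by norm_num) (by norm_num)
            hk hαle
          obtain ⟨l', hl1, hl2, hl3, hl4⟩ := key (d - a) l (2 / 3) hv (by norm_num) (by norm_num)
            hl hαle
          rw [← hk2] at hk3 hk4
          rw [← hl2] at hl3 hl4
          rw [hDdef] at hk3 hk4 hl3 hl4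
          exact ⟨⟨k', hk1, ar1 hk3, ar2 hk4⟩, ⟨l', hl1, ar3 hl3, ar4 hl4⟩⟩
    have h1 : mu2 (Dm (Hm e) (Cy τ) U m α) ≤ mu2 {X | pre X t ∈ L} := by
      have h2 : mu2 (Dm (Hm e) (Cy τ) U m α) ≤
          mu2 (Dm (Hm e) (Cy τ) U m α ∩ {X | ∀ n, X n < 2}) := by
        refine measure_mono_ae ?_
        filter_upwards [ae_bin] with X hX hXD
        exact ⟨hXD, hX⟩
      exact h2.trans (measure_mono hsub)
    have h3 := ENNReal.toReal_mono (measure_ne_top _ _) h1
    rw [count_real] at h3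
    have h4 : (1 / 2 : ℝ) ^ τ.length / 4000 < L.length * (1 / 2) ^ t := by
      rw [← hCy]; exact hD.trans_le h3
    have p1 : (0 : ℝ) < 2 ^ t := by positivity
    have p2 : (0 : ℝ) < 2 ^ τ.length := by positivity
    rw [one_div, inv_pow, inv_pow, ← div_eq_mul_inv, lt_div_iff₀ p1, div_mul_eq_mul_div,
      div_lt_iff₀ (by norm_num), inv_mul_lt_iff₀ p2] at h4
    have h5 : (2 : ℝ) ^ t ≤ 4000 * (2 ^ τ.length * L.length) := by linarith
    exact_mod_cast h5

/-- Almost no sequence of coins computes a solution. -/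
theorem ae_nosol : ∀ᵐ (X : ℕ → ℕ) ∂mu2, ∀ e : Code, ¬ SolSet cc (He e X) := by
  rw [ae_all_iff]
  intro e
  rw [ae_iff]
  simp only [not_not]
  refine null_of_density' mu2 _ tht ?_ ?_ fun x n => ?_
  · unfold tht; simp
  · unfold tht
    rw [ENNReal.ofReal_lt_one]; norm_num
  · set τ := pre x n with hτ
    have hlen : τ.length = n := pre_length x n
    have hcy : PiNat.cylinder x n = Cy τ := by
      rw [cyl_eq]; unfold Cy; rw [hlen]
    rw [hcy]
    set i := encode (e, τ) with hi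
    have hr : req i = (e, τ) := by
      unfold req; rw [hi, encodek]; rfl
    obtain ⟨J, hJ⟩ := exists_lim i
    have hval : J.1 < J.2.1 ∧ (J.2.1 : ℝ) / (J.2.2 + 1) ≤ 1 := by
      obtain ⟨s0, hs⟩ := hJ
      have h1 := JJ_valid s0 i
      have h2 := IJ_anti s0 (Nat.zero_le i)
      rw [hs s0 le_rfl] at h1 h2
      refine ⟨h1, ?_⟩
      have h3 : (J.2.1 : ℝ) / (J.2.2 + 1) ∈ IJ J := by
        refine ⟨?_, le_refl _⟩
        have h4 : (J.1 : ℝ) ≤ J.2.1 := by exact_mod_cast h1.le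
        exact div_le_div_of_nonneg_right h4 (by positivity)
      have h5 := (h2 h3).2
      simpa [JJ] using h5
    rcases lim_step hJ with ⟨k, hk, hL⟩ | ⟨hnone, -⟩
    · exact caseA hr hk hL
    · exact caseB' hr hval.1 hval.2 hnone

theorem main : ∃ c : ℕ → ℕ, Computable c ∧ (∀ n, c n < 2) ∧ ∀ ψ : ℕ →. ℕ, ∃ X h : ℕ → ℕ,
    TuringReducible (h : ℕ →. ℕ) (X : ℕ →. ℕ) ∧ (∀ e, h e ∉ ψ e) ∧
    ∀ H : Set ℕ, H.Infinite → (∃ i, ∀ x ∈ H, ∀ y ∈ H, x ≠ y → c (x + y) = i) →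
      ∀ g : ℕ → ℕ, IsChar g H → ¬ TuringReducible (g : ℕ →. ℕ) (X : ℕ →. ℕ) := by
  refine ⟨cc, cc_primrec.to_comp, fun n => Nat.mod_lt _ (by norm_num), fun ψ => ?_⟩
  obtain ⟨X, h1, k, h2⟩ := (ae_nosol.and (ae_dnc ψ)).exists
  refine ⟨X, blk k X, ?_, h2, ?_⟩
  · have hX : RI {(X : ℕ →. ℕ)} X := .oracle _ (mem_singleton _)
    exact RecursiveIn.iff_nat.2 (blk_RI k X hX)
  · intro H hH hi g hg hred
    have h3 : Nat.RecursiveIn {(X : ℕ →. ℕ)} (g : ℕ →. ℕ) := RecursiveIn.iff_nat.1 hred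
    obtain ⟨e, he⟩ := exists_He h3
    refine h1 e ?_
    have e1 : {x | g x = 1} = H := by
      ext n
      simp only [mem_ofPred_eq]
      constructor
      · intro hn
        by_contra hn'
        rw [(hg n).2 hn'] at hn
        omega
      · intro hn; exact (hg n).1 hn
    rw [he, e1]
    exact ⟨hH, hi⟩

end X97.BD
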