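import Pool.Agent.X97.BD.Avg
import Pool.Agent.X97.BD.Coin

/-! # Verification of the computable colouring -/

namespace X97.BD

open MeasureTheory Set X97.RH
open scoped ENNReal
open Nat.Partrec (Code)
open Encodable

/-! ### The approximations of the enumerated sets -/

def Hm (e : Code) (m : ℕ) (X : ℕ → ℕ) : Set ℕ := {x | InT e m (pre X m) x}

theorem pre_take (X : ℕ → ℕ) {k m : ℕ} (h : k ≤ m) : (pre X m).take k = pre X k := by
  unfold pre
  rw [← List.map_take, List.take_range, min_eq_left h]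

theorem app_Hm (e : Code) : App (Hm e) := by
  constructor
  · intro m X X' h x hx
    have : pre X' m = pre X m := pre_eq_iff.2 fun i hi => (h i hi).symm
    simp only [Hm, mem_ofPred_eq] at hx ⊢
    rw [this]; exact hx
  · intro m m' X hmm x hx
    obtain ⟨k, hk, h1⟩ := hx
    refine ⟨k, by omega, ?_⟩
    rw [pre_take X (by omega)] at h1 ⊢
    exact Code.evaln_mono hmm h1

theorem Hm_sub (e : Code) (m : ℕ) (X : ℕ → ℕ) : Hm e m X ⊆ He e X := by
  rintro x ⟨k, hk, h1⟩
  rw [pre_take X (by omega)] at h1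
  exact ⟨k, m, h1⟩

theorem iUnion_Hm (e : Code) (X : ℕ → ℕ) : (⋃ m, Hm e m X) = He e X := by
  ext x
  constructor
  · intro hx
    obtain ⟨m, hm⟩ := mem_iUnion.1 hx
    exact Hm_sub e m X hm
  · rintro ⟨m, t, h1⟩
    refine mem_iUnion.2 ⟨max m t, m, by omega, ?_⟩
    rw [pre_take X (le_max_left _ _)]
    exact Code.evaln_mono (le_max_right _ _) h1

/-! ### The limits of the intervals -/

theorem fi_of_least {s i : ℕ} {J : ℕ × ℕ × ℕ} {n : ℕ} (hn : Test (req i) J (cd n))
    (hmin : ∀ m < n, ¬ Test (req i) J (cd m)) (hs : n ≤ s) : fi s i J = n := by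
  classical
  unfold fi
  have hl : n < (List.range (s + 1)).length := by rw [List.length_range]; omega
  rw [List.findIdx_eq hl]
  refine ⟨by simpa using hn, fun j hj => by simpa using hmin j hj⟩

theorem fi_of_none {s i : ℕ} {J : ℕ × ℕ × ℕ} (h : ∀ n, ¬ Test (req i) J (cd n)) :
    fi s i J = s + 1 := by
  classical
  unfold fi
  have : (List.range (s + 1)).findIdx (fun n => decide (Test (req i) J (cd n))) =
      (List.range (s + 1)).length := by
    rw [List.findIdx_eq_length]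
    intro x _; simpa using h x
  rw [this, List.length_range]

theorem fi_spec {s i : ℕ} {J : ℕ × ℕ × ℕ} (h : fi s i J < s + 1) :
    Test (req i) J (cd (fi s i J)) := by
  classical
  have hl : (List.range (s + 1)).findIdx (fun n => decide (Test (req i) J (cd n))) <
      (List.range (s + 1)).length := by rw [List.length_range]; exact h
  have := List.findIdx_getElem (w := hl)
  simp only [List.getElem_range, decide_eq_true_eq] at this
  exact this

def Lim (i : ℕ) (J : ℕ × ℕ × ℕ) : Prop := ∃ s0, ∀ s, s0 ≤ s → JJ s i = J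

theorem lim_step {i : ℕ} {J : ℕ × ℕ × ℕ} (h : Lim i J) :
    (∃ n, Test (req i) J (cd n) ∧ Lim (i + 1) (cd n).2) ∨
    ((∀ n, ¬ Test (req i) J (cd n)) ∧ Lim (i + 1) J) := by
  classical
  obtain ⟨s0, hs⟩ := h
  by_cases hex : ∃ n, Test (req i) J (cd n)
  · left
    refine ⟨Nat.find hex, Nat.find_spec hex, max s0 (Nat.find hex), fun s hss => ?_⟩
    have h1 : fi s i J = Nat.find hex := fi_of_least (Nat.find_spec hex)
      (fun m hm => Nat.find_min hex hm) (by omega)
    rw [JJ, hs s (by omega), stp, h1, if_pos (by omega)]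
  · right
    push Not at hex
    refine ⟨hex, s0, fun s hss => ?_⟩
    rw [JJ, hs s hss, stp, fi_of_none hex, if_neg (by omega)]

theorem exists_lim (i : ℕ) : ∃ J, Lim i J := by
  induction i with
  | zero => exact ⟨(0, 1, 0), 0, fun s _ => rfl⟩
  | succ i ih =>
    obtain ⟨J, hJ⟩ := ih
    rcases lim_step hJ with ⟨n, -, h⟩ | ⟨-, h⟩
    · exact ⟨_, h⟩
    · exact ⟨_, h⟩

theorem JJ_valid (s i : ℕ) : (JJ s i).1 < (JJ s i).2.1 := by
  induction i with
  | zero => exact Nat.zero_lt_one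
  | succ i ih =>
    rw [JJ, stp]
    split_ifs with h
    · exact (fi_spec h).2.1
    · exact ih

/-- The real interval. -/
def IJ (J : ℕ × ℕ × ℕ) : Set ℝ := Icc ((J.1 : ℝ) / (J.2.2 + 1)) ((J.2.1 : ℝ) / (J.2.2 + 1))

theorem IJ_of_test {r : Code × List ℕ} {J : ℕ × ℕ × ℕ} {n : ℕ × ℕ × ℕ × ℕ} (h : Test r J n) :
    IJ n.2 ⊆ IJ J := by
  obtain ⟨-, -, h1, h2, -⟩ := h
  have p1 : (0 : ℝ) < (J.2.2 : ℝ) + 1 := by positivity
  have p2 : (0 : ℝ) < (n.2.2.2 : ℝ) + 1 := by positivity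
  refine Icc_subset_Icc ?_ ?_
  · rw [div_le_div_iff₀ p1 p2]; exact_mod_cast h1
  · rw [div_le_div_iff₀ p2 p1]; exact_mod_cast h2

theorem IJ_step (s i : ℕ) : IJ (JJ s (i + 1)) ⊆ IJ (JJ s i) := by
  rw [JJ, stp]
  split_ifs with h
  · exact IJ_of_test (fi_spec h)
  · exact Subset.rfl

theorem IJ_anti (s : ℕ) {i j : ℕ} (h : i ≤ j) : IJ (JJ s j) ⊆ IJ (JJ s i) :=
  antitone_nat_of_succ_le (f := fun i => IJ (JJ s i)) (fun i => IJ_step s i) h

/-- The steps of the phase. -/
noncomputable def bt (s : ℕ) : ℝ := ((JJ s s).1 : ℝ) / ((JJ s s).2.2 + 1)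

theorem bt_mem (s : ℕ) : bt s ∈ IJ (JJ s s) := by
  refine ⟨le_refl _, ?_⟩
  unfold bt
  have := JJ_valid s s
  have h1 : ((JJ s s).1 : ℝ) ≤ (JJ s s).2.1 := by exact_mod_cast this.le
  exact div_le_div_of_nonneg_right h1 (by positivity)

theorem bt_lim {i : ℕ} {J : ℕ × ℕ × ℕ} (h : Lim i J) : ∃ s0, ∀ s, s0 ≤ s → bt s ∈ IJ J := by
  obtain ⟨s0, hs⟩ := h
  refine ⟨max s0 i, fun s hss => ?_⟩
  have := IJ_anti s (show i ≤ s by omega) (bt_mem s)
  rwa [hs s (by omega)] at this

/-! ### The colouring -/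

theorem ph_pos (x : ℕ) : 0 < (ph x).2 := by
  induction x with
  | zero => exact Nat.one_pos
  | succ x ih => rw [ph]; positivity

theorem ph_th (x : ℕ) : ((ph x).1 : ℝ) / (ph x).2 = th bt x := by
  induction x with
  | zero => simp [ph, th]
  | succ x ih =>
    rw [th_succ, ← ih, bt, ph]
    have h1 : ((ph x).2 : ℝ) ≠ 0 := by exact_mod_cast (ph_pos x).ne'
    have h2 : (((JJ x x).2.2 : ℝ) + 1) ≠ 0 := by positivity
    push_cast
    field_simp

theorem cl_nat (n d : ℕ) (hd : 0 < d) : cl ((n : ℝ) / d) = (2 * n / d) % 2 := by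
  have hd' : (0 : ℝ) < d := by exact_mod_cast hd
  set m := n / d with hm
  set r := n % d with hr
  have hn : n = d * m + r := (Nat.div_add_mod n d).symm
  have hrd : r < d := Nat.mod_lt _ hd
  have hrd' : (r : ℝ) < d := by exact_mod_cast hrd
  have e1 : (n : ℝ) / d = (m : ℤ) + (r : ℝ) / d := by
    rw [hn]; push_cast; field_simp
  have e2 : Int.fract ((n : ℝ) / d) = (r : ℝ) / d := by
    rw [e1, Int.fract_intCast_add]
    exact Int.fract_eq_self.2 ⟨by positivity, (div_lt_one hd').2 hrd'⟩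
  have e3 : 2 * n / d = 2 * m + 2 * r / d := by
    rw [hn]
    have : 2 * (d * m + r) = 2 * r + d * (2 * m) := by ring
    rw [this, Nat.add_mul_div_left _ _ hd]; ring
  unfold cl
  rw [e2, e3]
  by_cases h : 2 * r < d
  · have h1 : (r : ℝ) / d < 1 / 2 := by
      rw [div_lt_div_iff₀ hd' (by norm_num)]
      have : (2 * r : ℝ) < d := by exact_mod_cast h
      linarith
    rw [if_pos h1, Nat.div_eq_of_lt h]; omega
  · have h1 : ¬ (r : ℝ) / d < 1 / 2 := by
      rw [div_lt_div_iff₀ hd' (by norm_num)]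
      have : (d : ℝ) ≤ 2 * r := by exact_mod_cast not_lt.1 h
      linarith
    have h2 : 2 * r / d = 1 := by
      apply Nat.div_eq_of_lt_le
      · omega
      · omega
    rw [if_neg h1, h2]; omega

theorem cc_eq (x : ℕ) : cc x = col bt x := by
  unfold cc col
  rw [← ph_th, cl_nat _ _ (ph_pos x)]

theorem th_diff2 {p q : ℝ} {s0 : ℕ} (h : ∀ s, s0 ≤ s → bt s ∈ Icc p q) {x : ℕ} (hx : s0 ≤ x)
    (s : ℕ) : s * p ≤ th bt (x + s) - th bt x ∧ th bt (x + s) - th bt x ≤ s * q := by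
  induction s with
  | zero => simp
  | succ s ih =>
    have h1 := h (x + s) (by omega)
    rw [← add_assoc, th_succ]
    push_cast
    constructor <;> linarith [ih.1, ih.2, h1.1, h1.2]

/-- A good triple of elements excludes solutions. -/
theorem not_sol {P Q D : ℕ} (hD : 0 < D) {s0 : ℕ}
    (h : ∀ s, s0 ≤ s → bt s ∈ Icc ((P : ℝ) / D) ((Q : ℝ) / D)) {a b d : ℕ} (hab : a < b)
    (hbd : b < d) (hG : GI (b - a) (d - a) P Q D) {H : Set ℕ} (ha : a ∈ H) (hb : b ∈ H)
    (hd : d ∈ H) : ¬ SolSet cc H := by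
  rintro ⟨hinf, i, hi⟩
  obtain ⟨y, hy, hylt⟩ := hinf.exists_gt (s0 + d)
  have ca := hi y hy a ha (by omega)
  have cb := hi y hy b hb (by omega)
  have cd := hi y hy d hd (by omega)
  rw [cc_eq] at ca cb cd
  have d1 := th_diff2 h (show s0 ≤ y + a by omega) (b - a)
  have d2 := th_diff2 h (show s0 ≤ y + a by omega) (d - a)
  have e1 : y + a + (b - a) = y + b := by omega
  have e2 : y + a + (d - a) = y + d := by omega
  rw [e1] at d1
  rw [e2] at d2
  obtain ⟨⟨k, -, k1, k2⟩, ⟨l, -, l1, l2⟩⟩ := hG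
  have hD' : (0 : ℝ) < D := by exact_mod_cast hD
  generalize b - a = u at d1 k1 k2
  generalize d - a = v at d2 l1 l2
  have k1' : ((60 * k + 17 : ℝ)) * D ≤ 60 * (u * P) := by exact_mod_cast k1
  have k2' : 60 * ((u : ℝ) * Q) ≤ (60 * k + 23) * D := by exact_mod_cast k2
  have l1' : ((60 * l + 37 : ℝ)) * D ≤ 60 * (v * P) := by exact_mod_cast l1
  have l2' : 60 * ((v : ℝ) * Q) ≤ (60 * l + 43) * D := by exact_mod_cast l2
  have k1'' : (60 * k + 17 : ℝ) / 60 ≤ u * (P / D) := by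
    rw [← mul_div_assoc, div_le_div_iff₀ (by norm_num) hD']; linarith
  have k2'' : u * ((Q : ℝ) / D) ≤ (60 * k + 23 : ℝ) / 60 := by
    rw [← mul_div_assoc, div_le_div_iff₀ hD' (by norm_num)]; linarith
  have l1'' : (60 * l + 37 : ℝ) / 60 ≤ v * (P / D) := by
    rw [← mul_div_assoc, div_le_div_iff₀ (by norm_num) hD']; linarith
  have l2'' : v * ((Q : ℝ) / D) ≤ (60 * l + 43 : ℝ) / 60 := by
    rw [← mul_div_assoc, div_le_div_iff₀ hD' (by norm_num)]; linarith
  refine not_mono (A := th bt (y + a)) (B := th bt (y + b)) (D := th bt (y + d)) (k := (k : ℤ))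
    (l := (l : ℤ)) ?_ ?_ ?_ ?_
  · rw [abs_le]; push_cast; constructor <;> linarith [d1.1, d1.2]
  · rw [abs_le]; push_cast; constructor <;> linarith [d2.1, d2.2]
  · exact ca.trans cb.symm
  · exact ca.trans cd.symm

end X97.BD
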